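import Pool.Agent.Helper77.ST.ELev
import Pool.Agent.Helper25.AE.End

/-!
# Project MP_0f6f3f_an, layer AE (algebraic end): `L` as a Euclidean space

`nacg h hν`, `ips h hν`: the inner product `ip θ ν` on `L` (`inner_def`); use them with `letI`. `brk`: the bracket of two root spaces as a bilinear map. `ip_lie`: `ip [x, z] [x, z] = c ip x x · ip z z` if `(φ, ψ) = -c ν` and `φ - ψ` is
not a root.
-/

set_option autoImplicit false

namespace Pool.Agent.Helper95.AE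

open Pool.Agent.Helper96.SA Pool.Agent.Helper96.TO Pool.Agent.Helper69.SLN Pool.Agent.Helper77.LA Pool.Agent.Helper77.ST Pool.Agent.Helper77.TZ2

open scoped RealInnerProductSpace

variable {L : Type} [LieRing L] [LieAlgebra ℝ L] {N : ℕ} {θ : L ≃ₗ⁅ℝ⁆ L} {b : Module.Basis (Fin N) ℝ L} {A : Submodule ℝ L}
  {τ : Module.Dual ℝ A ≃ₗ[ℝ] A} {ν : ℝ}

theorem ip_symm (h : CartanBasis θ b) (ν : ℝ) (x y : L) : ip θ ν x y = ip θ ν y x := by
  rw [ip, ip, ← kf_theta θ x (θ y), h.invol, kf_comm]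

theorem ip_pos (h : CartanBasis θ b) (hν : 0 < ν) {x : L} (hx : x ≠ 0) : 0 < ip θ ν x x := by
  have h1 := pos h hx
  rw [ip]
  nlinarith

theorem ip_add (ν : ℝ) (x y z : L) : ip θ ν (x + y) z = ip θ ν x z + ip θ ν y z := by
  rw [ip, ip, ip, map_add, LinearMap.add_apply]
  ring

theorem ip_smul (ν c : ℝ) (x y : L) : ip θ ν (c • x) y = c * ip θ ν x y := by
  rw [ip, ip, map_smul, LinearMap.smul_apply, smul_eq_mul]
  ring

/-- The inner product `ip θ ν`. -/
@[reducible] noncomputable def core (h : CartanBasis θ b) (hν : 0 < ν) : InnerProductSpace.Core ℝ L where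
  inner x y := ip θ ν x y
  conj_inner_symm x y := by
    change ip θ ν y x = ip θ ν x y
    exact ip_symm h ν y x
  re_inner_nonneg x := by
    change 0 ≤ ip θ ν x x
    by_cases hx : x = 0
    · rw [hx, ip, map_zero, LinearMap.zero_apply, mul_zero, neg_zero]
    · exact (ip_pos h hν hx).le
  add_left x y z := ip_add ν x y z
  smul_left x y r := ip_smul ν r x y
  definite x hx := by
    by_contra hne
    exact (ip_pos h hν hne).ne' hx

/-- `L` as a normed group. -/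
@[reducible] noncomputable def nacg (h : CartanBasis θ b) (hν : 0 < ν) : NormedAddCommGroup L := (core h hν).toNormedAddCommGroup

/-- `L` as a Euclidean space. -/
@[reducible] noncomputable def ips (h : CartanBasis θ b) (hν : 0 < ν) : @InnerProductSpace ℝ L _ (nacg h hν).toSeminormedAddCommGroup :=
  InnerProductSpace.ofCore (core h hν).toCore

theorem inner_def (h : CartanBasis θ b) (hν : 0 < ν) (x y : L) :
    letI := nacg h hν
    letI := ips h hν
    ⟪x, y⟫ = ip θ ν x y := rfl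

/-- The bracket of two root spaces. -/
def brk (A : Submodule ℝ L) (φ ψ χ : Module.Dual ℝ A) (h : φ + ψ = χ) : rsp A φ →ₗ[ℝ] rsp A ψ →ₗ[ℝ] rsp A χ :=
  LinearMap.mk₂ ℝ (fun x z => ⟨⁅(x : L), (z : L)⁆, by
      rw [← h]
      exact Wv.lie x.2 z.2⟩) (fun z z' x => Subtype.ext (by simp)) (fun c z x => Subtype.ext (by simp))
      (fun z x x' => Subtype.ext (by simp)) (fun c z x => Subtype.ext (by simp))

theorem brk_apply {φ ψ χ : Module.Dual ℝ A} {h : φ + ψ = χ} (x : rsp A φ) (z : rsp A ψ) : ((brk A φ ψ χ h x z : rsp A χ) : L) = ⁅(x : L), (z : L)⁆ :=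
  rfl

/-- The map `x ↦ θ x` between opposite root spaces. -/
def thr (hA : MaxFlat θ A) (φ φ' : Module.Dual ℝ A) (h : -φ = φ') : rsp A φ →ₗ[ℝ] rsp A φ' where
  toFun x := ⟨θ (x : L), by
    rw [← h]
    exact Wv.theta hA x.2⟩
  map_add' x y := Subtype.ext (by simp)
  map_smul' c x := Subtype.ext (by simp)

theorem thr_apply {hA : MaxFlat θ A} {φ φ' : Module.Dual ℝ A} {h : -φ = φ'} (x : rsp A φ) : ((thr hA φ φ' h x : rsp A φ') : L) = θ (x : L) := rfl

theorem ip_theta (h : CartanBasis θ b) (ν : ℝ) (x y : L) : ip θ ν (θ x) (θ y) = ip θ ν x y := by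
  rw [ip, ip, kf_theta]

/-- The adjoint of `ad x` is `-ad (θ x)`. -/
theorem ip_adj (h : CartanBasis θ b) (ν : ℝ) (x y z : L) : ip θ ν ⁅x, y⁆ z = -ip θ ν y ⁅θ x, z⁆ := by
  rw [ip, ip, LieEquiv.map_lie, h.invol, ← lie_skew, map_neg, LinearMap.neg_apply, kf_inv]
  ring

section tau

variable (hτ : ∀ (φ : Module.Dual ℝ A) (a : A), killingForm ℝ L (τ φ : L) (a : L) = φ a)

include hτ in
theorem theta_lie (h : CartanBasis θ b) (hA : MaxFlat θ A) {φ ψ : Module.Dual ℝ A} (hν : 0 < ν) {c : ℝ} (hc : ψ (τ φ) = c * ν) {x z : L} (hx : Wv A φ x)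
    (hz : Wv A ψ z) : ⁅⁅x, θ x⁆, z⁆ = -(c * ip θ ν x x) • z := by
  rw [lie_theta_self hτ h hA hx, smul_lie, hz (τ φ), smul_smul, hc, ip]
  congr 1
  ring

include hτ in
/-- The norm of a bracket. -/
theorem ip_lie (h : CartanBasis θ b) (hA : MaxFlat θ A) {φ ψ : Module.Dual ℝ A} (hν : 0 < ν) (h0 : φ - ψ ≠ 0) (h1 : φ - ψ ∉ rootsL A) {c : ℝ}
    (hc : ψ (τ φ) = -(c * ν)) {x z : L} (hx : Wv A φ x) (hz : Wv A ψ z) : ip θ ν ⁅x, z⁆ ⁅x, z⁆ = c * ip θ ν x x * ip θ ν z z := by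
  have e1 : ⁅θ x, z⁆ = 0 := by
    have h2 : ⁅x, θ z⁆ = 0 := by
      have h3 := hx.lie (hz.theta hA)
      rw [← sub_eq_add_neg] at h3
      exact h3.eq_zero h1 h0
    have h3 := congrArg θ h2
    rwa [LieEquiv.map_lie, h.invol, map_zero] at h3
  have e2 : ⁅θ x, ⁅x, z⁆⁆ = -(c * ip θ ν x x) • z := by
    have h2 := theta_lie hτ h hA hν (c := -c) (by rw [hc]; ring) hx hz
    rw [lie_lie, e1, lie_zero, zero_sub] at h2
    rw [← neg_neg ⁅θ x, ⁅x, z⁆⁆, h2, ← neg_smul]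
    congr 1
    ring
  rw [ip_adj h, e2, ip_symm h, ip_smul]
  ring

include hτ in
/-- The norm of a bracket, normalised. -/
theorem norm_lie (h : CartanBasis θ b) (hA : MaxFlat θ A) {φ ψ : Module.Dual ℝ A} (hν : 0 < ν) (h0 : φ - ψ ≠ 0) (h1 : φ - ψ ∉ rootsL A)
    (hc : ψ (τ φ) = -ν) {x z : L} (hx : Wv A φ x) (hz : Wv A ψ z) :
    letI := nacg h hν
    letI := ips h hν
    ‖⁅x, z⁆‖ = ‖x‖ * ‖z‖ := by
  letI := nacg h hν
  letI := ips h hν
  have h2 := ip_lie hτ h hA hν h0 h1 (c := 1) (by rw [hc]; ring) hx hz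
  rw [one_mul] at h2
  have h3 : ‖⁅x, z⁆‖ ^ 2 = (‖x‖ * ‖z‖) ^ 2 := by
    rw [mul_pow, ← real_inner_self_eq_norm_sq, ← real_inner_self_eq_norm_sq, ← real_inner_self_eq_norm_sq]
    exact h2
  exact (pow_left_inj₀ (norm_nonneg _) (by positivity) two_ne_zero).1 h3

end tau

end Pool.Agent.Helper95.AE
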