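import Pool.Agent.Helper95.AE.Lie2
import Pool.Agent.Helper25.AE.Tens

/-!
# Project MP_0f6f3f_an, layer AE (algebraic end): the edge of type `B_2`

`exists_F`: an isometry of root spaces is the restriction of a linear map `L → L'`, with `IsoOn`. `b2_edge`: type `B_2` (`al` long, `be` short), equal dimensions of the simple root spaces: the maps `F`, `G` of `iso_tensor` exist.
`b2_dims`: the dimensions `(dim g_be, dim g_al)` are `(s, 1)`, `(2, 2)`, `(4, 3)`.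
-/

set_option autoImplicit false
set_option linter.unusedSectionVars false
set_option linter.style.haveILetI false

namespace Pool.Agent.Helper95.AE

open Module Pool.Agent.Helper96.SA Pool.Agent.Helper96.TO Pool.Agent.Helper69.SLN Pool.Agent.Helper77.LA Pool.Agent.Helper77.ST Pool.Agent.Helper77.TZ2
open Pool.Agent.Helper25.AE

open scoped RealInnerProductSpace

variable {L : Type} [LieRing L] [LieAlgebra ℝ L] {N : ℕ} {θ : L ≃ₗ⁅ℝ⁆ L} {b : Module.Basis (Fin N) ℝ L} {A : Submodule ℝ L}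
  {τ : Module.Dual ℝ A ≃ₗ[ℝ] A} {ν : ℝ} {al be : Module.Dual ℝ A} {L' : Type} [LieRing L'] [LieAlgebra ℝ L'] {N' : ℕ} {θ' : L' ≃ₗ⁅ℝ⁆ L'}
  {b' : Module.Basis (Fin N') ℝ L'} {A' : Submodule ℝ L'} {τ' : Module.Dual ℝ A' ≃ₗ[ℝ] A'} {ν' : ℝ} {al' be' : Module.Dual ℝ A'}

theorem exists_F (h : CartanBasis θ b) (h' : CartanBasis θ' b') (hν : 0 < ν) (hν' : 0 < ν') {φ : Module.Dual ℝ A} {φ' : Module.Dual ℝ A'} :
    letI := nacg h hν
    letI := ips h hν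
    letI := nacg h' hν'
    letI := ips h' hν'
    ∀ f : rsp A φ ≃ₗᵢ[ℝ] rsp A' φ', ∃ F : L →ₗ[ℝ] L', (∀ x : rsp A φ, F (x : L) = (f x : L')) ∧ IsoOn θ θ' ν ν' φ φ' F := by
  letI := nacg h hν
  letI := ips h hν
  letI := nacg h' hν'
  letI := ips h' hν'
  intro f
  obtain ⟨F, hF⟩ := LinearMap.exists_extend ((rsp A' φ').subtype.comp (f.toLinearEquiv : rsp A φ →ₗ[ℝ] rsp A' φ'))
  have hF' : ∀ x : rsp A φ, F (x : L) = (f x : L') := fun x => LinearMap.congr_fun hF x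
  refine ⟨F, hF', fun x hx => ?_, fun y hy => ?_, fun x y hx hy => ?_⟩
  · have h1 := hF' ⟨x, hx⟩
    change F x = _ at h1
    rw [h1]
    exact (f ⟨x, hx⟩).2
  · refine ⟨(f.symm ⟨y, hy⟩ : L), (f.symm ⟨y, hy⟩).2, ?_⟩
    rw [hF', LinearIsometryEquiv.apply_symm_apply]
  · have h1 := hF' ⟨x, hx⟩
    have h2 := hF' ⟨y, hy⟩
    have h3 := f.inner_map_map ⟨x, hx⟩ ⟨y, hy⟩
    have h4 : ip θ' ν' (F x) (F y) = ip θ ν x y := by
      change F x = _ at h1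
      change F y = _ at h2
      rw [h1, h2]
      exact h3
    rw [ip, ip, neg_inj] at h4
    exact h4

/-- **The dimensions in type `B_2`.** -/
theorem b2_dims (c : Two θ b A τ al be ν) (hB : be + be ∉ rootsL A) (hal : al ∈ rootsL A) (hbe : be ∈ rootsL A) :
    finrank ℝ (rsp A al) = 1 ∨ (finrank ℝ (rsp A be) = 2 ∧ finrank ℝ (rsp A al) = 2) ∨ (finrank ℝ (rsp A be) = 4 ∧ finrank ℝ (rsp A al) = 3) := by
  have hf : Module.Finite ℝ L := Module.Finite.of_basis b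
  letI := nacg c.h c.hi.pos
  letI := ips c.h c.hi.pos
  have hn : ∀ {φ : Module.Dual ℝ A}, φ ∈ rootsL A → Nontrivial (rsp A φ) := by
    rintro φ ⟨-, x, hx0, hx⟩
    exact ⟨⟨⟨x, hx⟩, 0, fun h4 => hx0 (congrArg Subtype.val h4)⟩⟩
  have h1 := hn hal
  have h2 := hn hbe
  have h3 : 0 < finrank ℝ (rsp A al) := Module.finrank_pos
  rcases (c.b2d hB).dims (c.finrank_U hal) with h4 | h4
  · left
    omega
  · exact Or.inr h4

/-- **The edge of type `B_2`.** -/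
theorem b2_edge (c : Two θ b A τ al be ν) (c' : Two θ' b' A' τ' al' be' ν') (hB : be + be ∉ rootsL A) (hB' : be' + be' ∉ rootsL A')
    (hal : al ∈ rootsL A) (hbe : be ∈ rootsL A) (hal' : al' ∈ rootsL A') (h1 : finrank ℝ (rsp A al) = finrank ℝ (rsp A' al'))
    (h2 : finrank ℝ (rsp A be) = finrank ℝ (rsp A' be')) :
    ∃ F G : L →ₗ[ℝ] L', IsoOn θ θ' ν ν' be be' F ∧ IsoOn θ θ' ν ν' al al' G ∧ TC θ θ' A ν ν' be al F G := by
  have hf : Module.Finite ℝ L := Module.Finite.of_basis b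
  have hf' : Module.Finite ℝ L' := Module.Finite.of_basis b'
  letI := nacg c.h c.hi.pos
  letI := ips c.h c.hi.pos
  letI := nacg c'.h c'.hi.pos
  letI := ips c'.h c'.hi.pos
  have hn : Nontrivial (rsp A be) := by
    obtain ⟨-, x, hx0, hx⟩ := hbe
    exact ⟨⟨⟨x, hx⟩, 0, fun h4 => hx0 (congrArg Subtype.val h4)⟩⟩
  obtain ⟨f, g, hfg⟩ := (c.b2d hB).uniq (c'.b2d hB') (c.finrank_U hal) (c'.finrank_U hal') h2 h1
  obtain ⟨F, hF, hF'⟩ := exists_F c.h c'.h c.hi.pos c'.hi.pos f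
  obtain ⟨G, hG, hG'⟩ := exists_F c.h c'.h c.hi.pos c'.hi.pos g
  refine ⟨F, G, hF', hG', fun x y v w hx hy hv hw => ?_⟩
  have e1 := hF ⟨x, hx⟩
  have e2 := hF ⟨y, hy⟩
  have e3 := hG ⟨v, hv⟩
  have e4 := hG ⟨w, hw⟩
  change F x = _ at e1
  change F y = _ at e2
  change G v = _ at e3
  change G w = _ at e4
  have h3 := hfg ⟨x, hx⟩ ⟨y, hy⟩ ⟨v, hv⟩ ⟨w, hw⟩
  have h4 : ip θ' ν' ⁅F x, G v⁆ ⁅F y, G w⁆ = ip θ ν ⁅x, v⁆ ⁅y, w⁆ := by
    rw [e1, e2, e3, e4]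
    exact h3
  rw [ip, ip, neg_inj] at h4
  exact h4

end Pool.Agent.Helper95.AE
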