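import Pool.Agent.Helper95.AE.Clf

/-!
# Project MP_0f6f3f_an, layer AE (algebraic end): decomposition of modules

`exists_mod_basis`: if the operators `P i` have the property that `P i x` is an orthonormal family for every unit vector `x` and the products of the adjoints are multiples of the operators, then there is an orthonormal basis
`P i (v j)`. `uniq_mod`: two such modules with the same multiplication table and the same dimension are isomorphic.
-/

set_option autoImplicit false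
set_option linter.unusedSectionVars false

namespace Pool.Agent.Helper95.AE

open Module

open scoped RealInnerProductSpace

variable {V V' W W' : Type*} [NormedAddCommGroup V] [InnerProductSpace ℝ V] [NormedAddCommGroup V'] [InnerProductSpace ℝ V']
  [NormedAddCommGroup W] [InnerProductSpace ℝ W] [NormedAddCommGroup W'] [InnerProductSpace ℝ W'] {κ : Type} [Fintype κ]

theorem exists_mod_basis [Nonempty κ] [FiniteDimensional ℝ V] {P : κ → V →ₗ[ℝ] V} (h1 : ∀ x, ‖x‖ = 1 → Orthonormal ℝ fun i => P i x)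
    (h2 : ∀ i j, ∃ l, ∃ s : ℝ, ∀ x y, ⟪P i x, P j y⟫ = s * ⟪P l x, y⟫) :
    ∃ (k : ℕ) (v : Fin k → V) (e : OrthonormalBasis (Fin k × κ) ℝ V), ∀ p, e p = P p.2 (v p.1) := by
  classical
  have key : ∀ n : ℕ, ∃ (k : ℕ) (v : Fin k → V), Orthonormal ℝ (fun p : Fin k × κ => P p.2 (v p.1)) ∧
      (n ≤ k ∨ ⊤ ≤ Submodule.span ℝ (Set.range fun p : Fin k × κ => P p.2 (v p.1))) := by
    intro n
    induction n with
    | zero =>
      refine ⟨0, Fin.elim0, ⟨fun p => p.1.elim0, fun p => p.1.elim0⟩, Or.inl le_rfl⟩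
    | succ n ih =>
      obtain ⟨k, v, hv, hk⟩ := ih
      by_cases ht : ⊤ ≤ Submodule.span ℝ (Set.range fun p : Fin k × κ => P p.2 (v p.1))
      · exact ⟨k, v, hv, Or.inr ht⟩
      have hn : n ≤ k := hk.resolve_right ht
      have h3 : (Submodule.span ℝ (Set.range fun p : Fin k × κ => P p.2 (v p.1)))ᗮ ≠ ⊥ := by
        intro h4
        exact ht (Submodule.orthogonal_eq_bot_iff.1 h4).ge
      have h4 : Nontrivial (Submodule.span ℝ (Set.range fun p : Fin k × κ => P p.2 (v p.1)))ᗮ := Submodule.nontrivial_iff_ne_bot.2 h3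
      obtain ⟨u, hu⟩ := exists_norm_eq (Submodule.span ℝ (Set.range fun p : Fin k × κ => P p.2 (v p.1)))ᗮ zero_le_one
      have hu1 : ∀ p : Fin k × κ, ⟪P p.2 (v p.1), (u : V)⟫ = 0 := fun p =>
        (Submodule.mem_orthogonal _ _).1 u.2 _ (Submodule.subset_span ⟨p, rfl⟩)
      have hu2 : ∀ (i : Fin k) (j l : κ), ⟪P j (v i), P l (u : V)⟫ = 0 := by
        intro i j l
        obtain ⟨m, s, h5⟩ := h2 j l
        rw [h5, hu1 (i, m), mul_zero]
      have hu3 := h1 (u : V) hu
      refine ⟨k + 1, Fin.snoc v (u : V), ?_, Or.inl (by omega)⟩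
      rw [orthonormal_iff_ite] at hv hu3 ⊢
      rintro ⟨i, j⟩ ⟨i', j'⟩
      have hv' := fun (i i' : Fin k) (j j' : κ) => hv (i, j) (i', j')
      simp only at hv'
      induction i using Fin.lastCases with
      | last =>
        induction i' using Fin.lastCases with
        | last =>
          simp only [Fin.snoc_last]
          rw [hu3]
          by_cases hjj : j = j'
          · rw [if_pos hjj, if_pos (by rw [hjj])]
          · rw [if_neg hjj, if_neg fun h6 => hjj (Prod.mk.inj h6).2]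
        | cast i' =>
          simp only [Fin.snoc_last, Fin.snoc_castSucc]
          rw [real_inner_comm, hu2, if_neg fun h6 => (Fin.castSucc_lt_last i').ne (Prod.mk.inj h6).1.symm]
      | cast i =>
        induction i' using Fin.lastCases with
        | last =>
          simp only [Fin.snoc_last, Fin.snoc_castSucc]
          rw [hu2, if_neg fun h6 => (Fin.castSucc_lt_last i).ne (Prod.mk.inj h6).1]
        | cast i' =>
          simp only [Fin.snoc_castSucc]
          rw [hv']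
          by_cases hjj : (i, j) = (i', j')
          · rw [if_pos hjj, if_pos (by rw [(Prod.mk.inj hjj).1, (Prod.mk.inj hjj).2])]
          · rw [if_neg hjj, if_neg fun h6 => hjj (by
              rw [Fin.castSucc_injective _ (Prod.mk.inj h6).1, (Prod.mk.inj h6).2])]
  obtain ⟨k, v, hv, hk⟩ := key (finrank ℝ V + 1)
  have h3 := hv.linearIndependent.fintype_card_le_finrank
  rw [Fintype.card_prod, Fintype.card_fin] at h3
  have h4 : k ≤ k * Fintype.card κ := Nat.le_mul_of_pos_right _ Fintype.card_pos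
  have h5 : ⊤ ≤ Submodule.span ℝ (Set.range fun p : Fin k × κ => P p.2 (v p.1)) := hk.resolve_left (by omega)
  exact ⟨k, v, OrthonormalBasis.mk hv h5, fun p => by rw [OrthonormalBasis.coe_mk]⟩

/-- Two modules with the same multiplication table. -/
theorem uniq_mod [Nonempty κ] [FiniteDimensional ℝ V] [FiniteDimensional ℝ V'] {P : κ → V →ₗ[ℝ] V} {P' : κ → V' →ₗ[ℝ] V'}
    (h1 : ∀ x, ‖x‖ = 1 → Orthonormal ℝ fun i => P i x) (h2 : ∀ i j, ∃ l, ∃ s : ℝ, ∀ x y, ⟪P i x, P j y⟫ = s * ⟪P l x, y⟫)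
    (h1' : ∀ x, ‖x‖ = 1 → Orthonormal ℝ fun i => P' i x) (h2' : ∀ i j, ∃ l, ∃ s : ℝ, ∀ x y, ⟪P' i x, P' j y⟫ = s * ⟪P' l x, y⟫)
    (s : κ → κ → ℝ) (p : κ → κ → κ) (h3 : ∀ i j x, P i (P j x) = s i j • P (p i j) x) (h3' : ∀ i j x, P' i (P' j x) = s i j • P' (p i j) x)
    (hd : finrank ℝ V = finrank ℝ V') : ∃ f : V ≃ₗᵢ[ℝ] V', ∀ i x, f (P i x) = P' i (f x) := by
  obtain ⟨k, v, e, he⟩ := exists_mod_basis h1 h2
  obtain ⟨k', v', e', he'⟩ := exists_mod_basis h1' h2'
  have h4 := finrank_eq_card_basis e.toBasis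
  have h5 := finrank_eq_card_basis e'.toBasis
  rw [Fintype.card_prod, Fintype.card_fin] at h4 h5
  have hk : k = k' := Nat.eq_of_mul_eq_mul_right (Fintype.card_pos (α := κ)) (by rw [← h4, ← h5, hd])
  subst hk
  obtain ⟨f, hf⟩ : ∃ f : V ≃ₗᵢ[ℝ] V', ∀ j, f (e j) = e' j := ⟨e.equiv e' (Equiv.refl _), fun j => by simp⟩
  refine ⟨f, fun i x => ?_⟩
  have h6 : (f.toLinearEquiv : V →ₗ[ℝ] V').comp (P i) = (P' i).comp (f.toLinearEquiv : V →ₗ[ℝ] V') := by
    refine e.toBasis.ext fun q => ?_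
    rw [OrthonormalBasis.coe_toBasis]
    change f (P i (e q)) = P' i (f (e q))
    rw [hf, he, he', h3, h3', map_smul]
    have h7 := he (q.1, p i q.2)
    have h8 := he' (q.1, p i q.2)
    simp only at h7 h8
    rw [← h7, ← h8, hf]
  exact LinearMap.congr_fun h6 x

/-- Intertwining of a linear family of operators. -/
theorem inter_of_gen {J : W →ₗ[ℝ] V →ₗ[ℝ] V} {J' : W' →ₗ[ℝ] V' →ₗ[ℝ] V'} (b : OrthonormalBasis κ ℝ W) (b' : OrthonormalBasis κ ℝ W')
    (f : V ≃ₗᵢ[ℝ] V') (h : ∀ i x, f (J (b i) x) = J' (b' i) (f x)) :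
    ∃ g : W ≃ₗᵢ[ℝ] W', (∀ i, g (b i) = b' i) ∧ ∀ z x, f (J z x) = J' (g z) (f x) := by
  obtain ⟨g, hg⟩ : ∃ g : W ≃ₗᵢ[ℝ] W', ∀ i, g (b i) = b' i := ⟨b.equiv b' (Equiv.refl κ), fun i => by simp⟩
  refine ⟨g, hg, fun z x => ?_⟩
  have h1 : (J.flip x).range ≤ ⊤ := le_top
  have h2 : (f.toLinearEquiv : V →ₗ[ℝ] V').comp (J.flip x) = (J'.flip (f x)).comp (g.toLinearEquiv : W →ₗ[ℝ] W') := by
    refine b.toBasis.ext fun i => ?_
    rw [OrthonormalBasis.coe_toBasis]
    change f (J (b i) x) = J' (g (b i)) (f x)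
    rw [hg, h]
  exact LinearMap.congr_fun h2 z

/-- Intertwining of one operator. -/
theorem inter_one {ι : Type} [Fintype ι] (e : OrthonormalBasis ι ℝ V) (e' : OrthonormalBasis ι ℝ V') {f : V ≃ₗᵢ[ℝ] V'} (hf : ∀ j, f (e j) = e' j)
    {P : V →ₗ[ℝ] V} {P' : V' →ₗ[ℝ] V'} (s : ι → ℝ) (p : ι → ι) (h : ∀ j, P (e j) = s j • e (p j)) (h' : ∀ j, P' (e' j) = s j • e' (p j)) (x : V) :
    f (P x) = P' (f x) := by
  have h6 : (f.toLinearEquiv : V →ₗ[ℝ] V').comp P = P'.comp (f.toLinearEquiv : V →ₗ[ℝ] V') := by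
    refine e.toBasis.ext fun q => ?_
    rw [OrthonormalBasis.coe_toBasis]
    change f (P (e q)) = P' (f (e q))
    rw [hf, h, h', map_smul, hf]
  exact LinearMap.congr_fun h6 x

end Pool.Agent.Helper95.AE
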