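import Pool.Agent.Helper95.AE.Clf

/-!
# Project MP_0f6f3f_an, layer AE (algebraic end): the linear algebra of type `B_2`

`B2d m n`: `V`, `W`, `U`, `W2` stand for the root spaces of the short simple root `be`, the long simple root `al`, `al + be`, `al + 2 be`; `m x z = [x, z]`, `n x t = -[θ x, t]`, normalised. `B2d.dims`: the dimensions
`(dim V, dim W)` are `(s, 1)`, `(2, 2)` or `(4, 3)`. `B2d.uniq`: the dimensions determine the data.
-/

set_option autoImplicit false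
set_option linter.unusedSectionVars false

namespace Pool.Agent.Helper95.AE

open Module

open scoped RealInnerProductSpace

section

variable {V W U W2 : Type*} [NormedAddCommGroup V] [InnerProductSpace ℝ V] [NormedAddCommGroup W] [InnerProductSpace ℝ W]
  [NormedAddCommGroup U] [InnerProductSpace ℝ U] [NormedAddCommGroup W2] [InnerProductSpace ℝ W2]

/-- The data of type `B_2`. -/
structure B2d (m : V →ₗ[ℝ] W →ₗ[ℝ] U) (n : V →ₗ[ℝ] W2 →ₗ[ℝ] U) : Prop where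
  nm : ∀ x z, ‖m x z‖ = ‖x‖ * ‖z‖
  nn : ∀ x t, ‖n x t‖ = ‖x‖ * ‖t‖
  sy : ∀ x y z t, ⟪n x t, m y z⟫ = ⟪n y t, m x z⟫
  f1 : ∀ x z, ‖x‖ = 1 → ∃ t, n x t = m x z
  f2 : ∀ x t, ‖x‖ = 1 → ∃ z, m x z = n x t

variable [FiniteDimensional ℝ V] [FiniteDimensional ℝ W] [FiniteDimensional ℝ U] [FiniteDimensional ℝ W2] {m : V →ₗ[ℝ] W →ₗ[ℝ] U}
  {n : V →ₗ[ℝ] W2 →ₗ[ℝ] U}

theorem finrank_le_of_factor {W₁ W₂ U' : Type*} [AddCommGroup W₁] [Module ℝ W₁] [AddCommGroup W₂] [Module ℝ W₂] [AddCommGroup U']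
    [Module ℝ U'] [FiniteDimensional ℝ W₂] {f : W₁ →ₗ[ℝ] U'} {g : W₂ →ₗ[ℝ] U'} (hf : Function.Injective f)
    (h : ∀ z, ∃ t, g t = f z) : finrank ℝ W₁ ≤ finrank ℝ W₂ := by
  have h1 : LinearMap.range f ≤ LinearMap.range g := by
    rintro _ ⟨z, rfl⟩
    obtain ⟨t, ht⟩ := h z
    exact ⟨t, ht⟩
  have h2 : finrank ℝ W₁ = finrank ℝ (LinearMap.range f) := (LinearMap.finrank_range_of_inj hf).symm
  have h3 : finrank ℝ (LinearMap.range f) ≤ finrank ℝ (LinearMap.range g) := Submodule.finrank_mono h1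
  have h4 : finrank ℝ (LinearMap.range g) ≤ finrank ℝ W₂ := LinearMap.finrank_range_le g
  omega

theorem inj_of_norm {W₁ U' : Type*} [NormedAddCommGroup W₁] [InnerProductSpace ℝ W₁] [NormedAddCommGroup U'] [InnerProductSpace ℝ U']
    {f : W₁ →ₗ[ℝ] U'} {c : ℝ} (hc : c ≠ 0) (h : ∀ z, ‖f z‖ = c * ‖z‖) : Function.Injective f := by
  rw [injective_iff_map_eq_zero]
  intro z hz
  have h1 := h z
  rw [hz, norm_zero] at h1
  exact norm_eq_zero.1 ((mul_eq_zero.1 h1.symm).resolve_left hc)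

theorem B2d.finrank_eq [Nontrivial V] (hB : B2d m n) : finrank ℝ W2 = finrank ℝ W := by
  obtain ⟨x, hx⟩ := exists_norm_eq V zero_le_one
  refine le_antisymm ?_ ?_
  · exact finrank_le_of_factor (f := n x) (g := m x) (inj_of_norm one_ne_zero fun t => by rw [hB.nn, hx]) fun t => hB.f2 x t hx
  · exact finrank_le_of_factor (f := m x) (g := n x) (inj_of_norm one_ne_zero fun t => by rw [hB.nm, hx]) fun z => hB.f1 x z hx

theorem B2d.exists_S [Nontrivial V] (hB : B2d m n) (hd : finrank ℝ U = finrank ℝ V) {z0 : W} (hz0 : ‖z0‖ = 1) :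
    ∃ (J : W →ₗ[ℝ] V →ₗ[ℝ] V) (S : W2 →ₗ[ℝ] V →ₗ[ℝ] V), NM J z0 ∧ Sys S ∧ (∀ x y z w, ⟪m x z, m y w⟫ = ⟪J z x, J w y⟫) ∧
      ∀ t z, ⟪z, z0⟫ = 0 → ∀ x, S t (J z x) = -J z (S t x) := by
  obtain ⟨C, J, hC, hJ, hCJ⟩ := exists_nm hB.nm hd hz0
  let S : W2 →ₗ[ℝ] V →ₗ[ℝ] V := n.flip.compr₂ (C.symm.toLinearEquiv : U →ₗ[ℝ] V)
  have hS : ∀ t x, C (S t x) = n x t := fun t x => C.apply_symm_apply _
  have hsy : ∀ t x y z, ⟪S t x, J z y⟫ = ⟪S t y, J z x⟫ := by
    intro t x y z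
    rw [← C.inner_map_map, ← C.inner_map_map (S t y), hS, hS, hCJ, hCJ, hB.sy]
  have h0 : ∀ t x y, ⟪S t x, y⟫ = ⟪x, S t y⟫ := by
    intro t x y
    have h1 := hsy t x y z0
    rw [hJ.one, hJ.one] at h1
    rw [h1, real_inner_comm]
  have hn : ∀ t x, ‖S t x‖ = ‖t‖ * ‖x‖ := by
    intro t x
    rw [← C.norm_map, hS, hB.nn, mul_comm]
  refine ⟨J, S, hJ, ⟨h0, fun t x => ?_, fun x hx => ?_⟩, fun x y z w => ?_, fun t z hz x => ?_⟩
  · refine ext_inner' fun y => ?_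
    rw [h0, pol_right hn, inner_smul_left]
    simp
  · obtain ⟨t, ht⟩ := hB.f1 x z0 hx
    have h1 : S t x = x := by
      apply C.injective
      rw [hS, ht, hC]
    refine ⟨t, ?_, h1⟩
    have h2 := hn t x
    rw [h1, hx, mul_one] at h2
    exact h2.symm
  · rw [← hCJ, ← hCJ, C.inner_map_map]
  · refine ext_inner' fun y => ?_
    rw [h0, inner_neg_left, real_inner_comm, hsy, real_inner_comm, hJ.skew hz, real_inner_comm]

/-- **The dimensions in type `B_2`.** -/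
theorem B2d.dims [Nontrivial V] (hB : B2d m n) (hd : finrank ℝ U = finrank ℝ V) :
    finrank ℝ W ≤ 1 ∨ (finrank ℝ V = 2 ∧ finrank ℝ W = 2) ∨ (finrank ℝ V = 4 ∧ finrank ℝ W = 3) := by
  by_cases hl : finrank ℝ W ≤ 1
  · exact Or.inl hl
  right
  rw [not_le] at hl
  have hW : Nontrivial W := Module.nontrivial_of_finrank_pos (R := ℝ) (by omega)
  obtain ⟨z0, hz0⟩ := exists_norm_eq W zero_le_one
  obtain ⟨J, S, hJ, hS, -, hSJ⟩ := hB.exists_S hd hz0
  have hT := hB.finrank_eq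
  have hdim := hS.dim (by omega)
  obtain ⟨t1, t2, ht1, ht2, h12⟩ : ∃ t t2 : W2, ‖t‖ = 1 ∧ ‖t2‖ = 1 ∧ ⟪t2, t⟫ = 0 := by
    let B := stdOrthonormalBasis ℝ W2
    refine ⟨B ⟨0, by omega⟩, B ⟨1, by omega⟩, B.orthonormal.1 _, B.orthonormal.1 _, B.orthonormal.2 ?_⟩
    intro h
    exact absurd (congrArg Fin.val h) one_ne_zero
  obtain ⟨x0, hx0, hx0'⟩ := hS.exists_pos ht1 ht2 h12
  have hneg := hS.finrank_neg ht1 hx0 hx0'
  have hsw := hS.swap ht2 h12
  have hZ : finrank ℝ (ℝ ∙ z0)ᗮ + 1 = finrank ℝ W := by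
    have hz00 : z0 ≠ 0 := by
      rintro rfl
      rw [norm_zero] at hz0
      exact zero_ne_one hz0
    have h2 := (ℝ ∙ z0).finrank_add_finrank_orthogonal
    rw [finrank_span_singleton hz00] at h2
    omega
  have hzp : ∀ z : (ℝ ∙ z0)ᗮ, ⟪(z : W), z0⟫ = 0 := fun z => by
    rw [real_inner_comm]
    exact Submodule.mem_orthogonal_singleton_iff_inner_right.1 z.2
  -- `J z` exchanges the eigenspaces
  have hJm : ∀ z : (ℝ ∙ z0)ᗮ, ∀ x ∈ em S t1 1, J (z : W) x ∈ em S t1 (-1) := by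
    intro z x hx
    rw [mem_em] at hx ⊢
    rw [hSJ t1 z (hzp z), hx, one_smul, neg_one_smul]
  have hS2 : ∀ x ∈ em S t1 (-1), S t2 x ∈ em S t1 1 := by
    intro x hx
    rw [mem_em] at hx ⊢
    rw [hS.anti (by rw [real_inner_comm]; exact h12), hx, neg_one_smul, map_neg, neg_neg, one_smul]
  let M : (ℝ ∙ z0)ᗮ →ₗ[ℝ] em S t1 1 →ₗ[ℝ] em S t1 1 :=
    LinearMap.mk₂ ℝ (fun z x => ⟨S t2 (J (z : W) (x : V)), hS2 _ (hJm z x x.2)⟩)
      (fun z z' x => Subtype.ext (by simp)) (fun c z x => Subtype.ext (by simp))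
      (fun z x x' => Subtype.ext (by simp)) (fun c z x => Subtype.ext (by simp))
  have hM : ∀ z x, ((M z x : em S t1 1) : V) = S t2 (J (z : W) (x : V)) := fun z x => rfl
  have hMS : Sys M := by
    refine ⟨fun z x y => ?_, fun z x => ?_, fun x hx => ?_⟩
    · rw [Submodule.coe_inner, Submodule.coe_inner, hM, hM, hS.symm, hJ.skew (hzp z), hSJ t2 z (hzp z), inner_neg_right]
    · apply Subtype.ext
      rw [hM, hM, Submodule.coe_smul, hSJ t2 z (hzp z), hS.sq, ht2, one_pow, one_smul, hJ.sq (hzp z), neg_neg]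
      rfl
    · -- surjectivity of `z ↦ J z x`
      have hx' : (x : V) ∈ em S t1 1 := x.2
      have hxn : ‖(x : V)‖ = 1 := hx
      let f : (ℝ ∙ z0)ᗮ →ₗ[ℝ] em S t1 (-1) :=
        { toFun := fun z => ⟨J (z : W) (x : V), hJm z x hx'⟩
          map_add' := fun s s' => Subtype.ext (by simp)
          map_smul' := fun c s => Subtype.ext (by simp) }
      have hfi : Function.Injective f := by
        rw [injective_iff_map_eq_zero]
        intro z hz
        have h1 : J (z : W) (x : V) = 0 := congrArg Subtype.val hz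
        have h2 := hJ.nrm (z : W) (x : V)
        rw [h1, norm_zero, hxn, mul_one] at h2
        exact Subtype.ext (norm_eq_zero.1 h2.symm)
      have hfs : Function.Surjective f :=
        (LinearMap.injective_iff_surjective_of_finrank_eq_finrank (by omega)).1 hfi
      have hSx : S t2 (x : V) ∈ em S t1 (-1) := by
        rw [mem_em] at hx' ⊢
        rw [hS.anti (by rw [real_inner_comm]; exact h12), hx', map_smul, one_smul, neg_one_smul]
      obtain ⟨z, hz⟩ := hfs ⟨S t2 (x : V), hSx⟩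
      have hz' : J (z : W) (x : V) = S t2 (x : V) := congrArg Subtype.val hz
      refine ⟨z, ?_, Subtype.ext ?_⟩
      · have h2 := hJ.nrm (z : W) (x : V)
        rw [hz', hS.norm, ht2, hxn, mul_one, mul_one] at h2
        exact h2.symm
      · rw [hM, hz', hS.sq, ht2, one_pow, one_smul]
  by_cases hl2 : finrank ℝ W = 2
  · exact Or.inl ⟨by omega, hl2⟩
  · right
    have hE : Nontrivial (em S t1 1) := Module.nontrivial_of_finrank_pos (R := ℝ) (by omega)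
    have h5 := hMS.dim (by omega)
    omega

/-- Spaces of the same dimension are isometric. -/
theorem exists_isometry {V V' : Type*} [NormedAddCommGroup V] [InnerProductSpace ℝ V] [NormedAddCommGroup V'] [InnerProductSpace ℝ V']
    [FiniteDimensional ℝ V] [FiniteDimensional ℝ V'] (h : finrank ℝ V = finrank ℝ V') : Nonempty (V ≃ₗᵢ[ℝ] V') := by
  refine ⟨(stdOrthonormalBasis ℝ V).equiv (stdOrthonormalBasis ℝ V') (finCongr h)⟩

/-- A normed bilinear map on a line. -/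
theorem inner_of_line {m : V →ₗ[ℝ] W →ₗ[ℝ] U} (hm : ∀ x z, ‖m x z‖ = ‖x‖ * ‖z‖) (hW : finrank ℝ W ≤ 1) (x y : V) (z w : W) :
    ⟪m x z, m y w⟫ = ⟪x, y⟫ * ⟪z, w⟫ := by
  obtain ⟨v, hv⟩ := finrank_le_one_iff.1 hW
  obtain ⟨a, rfl⟩ := hv z
  obtain ⟨b, rfl⟩ := hv w
  rw [map_smul, map_smul, inner_smul_left, inner_smul_right, pol_left hm, inner_smul_left, inner_smul_right, real_inner_self_eq_norm_sq]
  simp
  ring

variable {V' W' U' W2' : Type*} [NormedAddCommGroup V'] [InnerProductSpace ℝ V'] [NormedAddCommGroup W'] [InnerProductSpace ℝ W']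
  [NormedAddCommGroup U'] [InnerProductSpace ℝ U'] [NormedAddCommGroup W2'] [InnerProductSpace ℝ W2'] [FiniteDimensional ℝ V']
  [FiniteDimensional ℝ W'] [FiniteDimensional ℝ U'] [FiniteDimensional ℝ W2'] {m' : V' →ₗ[ℝ] W' →ₗ[ℝ] U'} {n' : V' →ₗ[ℝ] W2' →ₗ[ℝ] U'}

/-- **Uniqueness in type `B_2`.** -/
theorem B2d.uniq [Nontrivial V] (hB : B2d m n) (hB' : B2d m' n') (hd : finrank ℝ U = finrank ℝ V) (hd' : finrank ℝ U' = finrank ℝ V')
    (hV : finrank ℝ V = finrank ℝ V') (hW : finrank ℝ W = finrank ℝ W') :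
    ∃ (f : V ≃ₗᵢ[ℝ] V') (g : W ≃ₗᵢ[ℝ] W'), ∀ x y z w, ⟪m' (f x) (g z), m' (f y) (g w)⟫ = ⟪m x z, m y w⟫ := by
  by_cases hl : finrank ℝ W ≤ 1
  · obtain ⟨f⟩ := exists_isometry hV
    obtain ⟨g⟩ := exists_isometry hW
    refine ⟨f, g, fun x y z w => ?_⟩
    rw [inner_of_line hB.nm hl, inner_of_line hB'.nm (by omega), f.inner_map_map, g.inner_map_map]
  have hW1 : Nontrivial W := Module.nontrivial_of_finrank_pos (R := ℝ) (by omega)
  have hW1' : Nontrivial W' := Module.nontrivial_of_finrank_pos (R := ℝ) (by omega)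
  obtain ⟨z0, hz0⟩ := exists_norm_eq W zero_le_one
  obtain ⟨z0', hz0'⟩ := exists_norm_eq W' zero_le_one
  obtain ⟨C, J, hC, hJ, hCJ⟩ := exists_nm hB.nm hd hz0
  obtain ⟨C', J', hC', hJ', hCJ'⟩ := exists_nm hB'.nm hd' hz0'
  have key : ∃ (f : V ≃ₗᵢ[ℝ] V') (g : W ≃ₗᵢ[ℝ] W'), g z0 = z0' ∧ ∀ z x, f (J z x) = J' (g z) (f x) := by
    rcases hB.dims hd with h1 | ⟨h1, h2⟩ | ⟨h1, h2⟩
    · exact absurd h1 hl
    · exact uniq2 hJ hJ' hz0 hz0' h1 (by omega) h2 (by omega)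
    · exact uniq3 hJ hJ' hz0 hz0' h1 (by omega) h2 (by omega)
  obtain ⟨f, g, -, hfg⟩ := key
  refine ⟨f, g, fun x y z w => ?_⟩
  rw [← hCJ', ← hCJ', C'.inner_map_map, ← hfg, ← hfg, f.inner_map_map, ← C.inner_map_map, hCJ, hCJ]

end

end Pool.Agent.Helper95.AE
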