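import Pool.Agent.Helper95.AE.Wrap
import Pool.Agent.Helper95.AE.B2
import Pool.Agent.Helper77.ST.ACls

/-!
# Project MP_0f6f3f_an, layer AE (algebraic end): the root spaces of types `B_2`, `BC_2`

`Two θ b A τ al be ν`: the restricted roots in the span of `al`, `be` are contained in a root system of type `BC_2`, `al` long (medium), `be` short. `Two.nr`: non-roots. `Two.mm`, `Two.nn`: the normed maps `[x, z]`, `x ∈ g_be`, `z ∈ g_al`, and `-[θ x, t]`, `t ∈ g_(al + 2 be)`.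
`Two.f1`, `Two.f2`: their images agree. `Two.finrank_U`: `dim g_(al + be) = dim g_be`.
-/

set_option autoImplicit false
set_option linter.unusedSectionVars false
set_option linter.style.haveILetI false

namespace Pool.Agent.Helper95.AE

open Module Pool.Agent.Helper96.SA Pool.Agent.Helper96.TO Pool.Agent.Helper69.SLN Pool.Agent.Helper77.LA Pool.Agent.Helper77.ST Pool.Agent.Helper77.TZ2

open scoped RealInnerProductSpace

variable {L : Type} [LieRing L] [LieAlgebra ℝ L] {N : ℕ} {θ : L ≃ₗ⁅ℝ⁆ L} {b : Module.Basis (Fin N) ℝ L} {A : Submodule ℝ L}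
  {τ : Module.Dual ℝ A ≃ₗ[ℝ] A} {ν : ℝ} {al be : Module.Dual ℝ A}

/-- Types `B_2`, `BC_2` (only the non-roots are required). -/
structure Two (θ : L ≃ₗ⁅ℝ⁆ L) (b : Module.Basis (Fin N) ℝ L) (A : Submodule ℝ L) (τ : Module.Dual ℝ A ≃ₗ[ℝ] A)
    (al be : Module.Dual ℝ A) (ν : ℝ) : Prop where
  h : CartanBasis θ b
  hA : MaxFlat θ A
  hτ : ∀ (φ : Module.Dual ℝ A) (a : A), killingForm ℝ L (τ φ : L) (a : L) = φ a
  ind : ∀ s t : ℝ, s • al + t • be = 0 → s = 0 ∧ t = 0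
  hi : IP2 τ al be ν
  hn : ∀ m n : ℤ, (∀ p ∈ lBC2, ¬((p.1 : ℤ) = m ∧ (p.2 : ℤ) = n) ∧ ¬(-(p.1 : ℤ) = m ∧ -(p.2 : ℤ) = n)) →
    (m : ℝ) • al + (n : ℝ) • be ∉ rootsL A

/-- A combination of the simple roots which is not in the list. -/
theorem nr_of {S : List (ℕ × ℕ)} (ind : ∀ s t : ℝ, s • al + t • be = 0 → s = 0 ∧ t = 0) (hR : RL A al be S) {m n : ℤ}
    (hS : ∀ p ∈ S, ¬((p.1 : ℤ) = m ∧ (p.2 : ℤ) = n) ∧ ¬(-(p.1 : ℤ) = m ∧ -(p.2 : ℤ) = n)) : (m : ℝ) • al + (n : ℝ) • be ∉ rootsL A := by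
  intro h
  obtain ⟨p, hp, h1⟩ := (hR _).1 h
  obtain ⟨h2, h3⟩ := hS p hp
  rcases h1 with h1 | h1
  · obtain ⟨e1, e2⟩ := ind ((m : ℝ) - p.1) ((n : ℝ) - p.2) (by
      rw [← sub_eq_zero] at h1
      rw [← h1]
      module)
    apply h2
    constructor
    · have e3 : (m : ℝ) = (p.1 : ℕ) := sub_eq_zero.1 e1
      exact_mod_cast e3.symm
    · have e3 : (n : ℝ) = (p.2 : ℕ) := sub_eq_zero.1 e2
      exact_mod_cast e3.symm
  · obtain ⟨e1, e2⟩ := ind ((m : ℝ) + p.1) ((n : ℝ) + p.2) (by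
      rw [← sub_eq_zero] at h1
      rw [← h1]
      module)
    apply h3
    constructor
    · have e3 : -((p.1 : ℕ) : ℝ) = m := by linarith
      exact_mod_cast e3
    · have e3 : -((p.2 : ℕ) : ℝ) = n := by linarith
      exact_mod_cast e3

theorem Two.nr (c : Two θ b A τ al be ν) {m n : ℤ} (hB : ∀ p ∈ lBC2, ¬((p.1 : ℤ) = m ∧ (p.2 : ℤ) = n) ∧ ¬(-(p.1 : ℤ) = m ∧ -(p.2 : ℤ) = n)) :
    (m : ℝ) • al + (n : ℝ) • be ∉ rootsL A := c.hn m n hB

/-- Types `B_2`, `BC_2`. -/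
theorem two_of (h : CartanBasis θ b) (hA : MaxFlat θ A) (hτ : ∀ (φ : Module.Dual ℝ A) (a : A), killingForm ℝ L (τ φ : L) (a : L) = φ a)
    (ind : ∀ s t : ℝ, s • al + t • be = 0 → s = 0 ∧ t = 0) (hi : IP2 τ al be ν) (hR : RL A al be lB2 ∨ RL A al be lBC2) :
    Two θ b A τ al be ν where
  h := h
  hA := hA
  hτ := hτ
  ind := ind
  hi := hi
  hn m n hB := by
    rcases hR with hR | hR
    · refine nr_of ind hR fun p hp => hB p ?_
      simp only [lB2, List.mem_cons, List.not_mem_nil, or_false] at hp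
      rcases hp with rfl | rfl | rfl | rfl <;> decide
    · exact nr_of ind hR hB

/-- The part `C_2` of `BC_2`. -/
theorem two_C (h : CartanBasis θ b) (hA : MaxFlat θ A) (hτ : ∀ (φ : Module.Dual ℝ A) (a : A), killingForm ℝ L (τ φ : L) (a : L) = φ a)
    (ind : ∀ s t : ℝ, s • al + t • be = 0 → s = 0 ∧ t = 0) (hi : IP2 τ al be ν) (hR : RL A al be lBC2) :
    Two θ b A τ ((2 : ℝ) • be) al (2 * ν) where
  h := h
  hA := hA
  hτ := hτ
  ind s t hst := by
    obtain ⟨h1, h2⟩ := ind t (2 * s) (by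
      rw [← hst]
      module)
    exact ⟨by linarith, h1⟩
  hi := by
    refine ⟨by linarith [hi.pos], hi.aa, ?_, ?_, ?_⟩
    · rw [LinearMap.smul_apply, hi.ba, smul_eq_mul]
      ring
    · rw [map_smul, map_smul, hi.ab, smul_eq_mul]
      ring
    · rw [map_smul, map_smul, LinearMap.smul_apply, hi.bb, smul_eq_mul, smul_eq_mul]
  hn m n hB := by
    have h1 : (m : ℝ) • (2 : ℝ) • be + (n : ℝ) • al = (n : ℝ) • al + ((2 * m : ℤ) : ℝ) • be := by
      push_cast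
      module
    rw [h1]
    refine nr_of ind hR fun p hp => ?_
    have e1 := hB (0, 1) (by decide)
    have e2 := hB (1, 0) (by decide)
    have e3 := hB (1, 1) (by decide)
    have e4 := hB (1, 2) (by decide)
    simp only [lBC2, List.mem_cons, List.not_mem_nil, or_false] at hp
    rcases hp with rfl | rfl | rfl | rfl | rfl | rfl <;> simp only [Nat.cast_zero, Nat.cast_one, Nat.cast_ofNat] at e1 e2 e3 e4 ⊢ <;> omega

theorem Two.ne (c : Two θ b A τ al be ν) {m n : ℤ} (hmn : m ≠ 0 ∨ n ≠ 0) : (m : ℝ) • al + (n : ℝ) • be ≠ 0 := by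
  intro h
  obtain ⟨h1, h2⟩ := c.ind _ _ h
  rcases hmn with h3 | h3
  · exact h3 (by exact_mod_cast h1)
  · exact h3 (by exact_mod_cast h2)

/-- Vanishing of brackets. -/
theorem Two.zero (c : Two θ b A τ al be ν) {χ : Module.Dual ℝ A} {x : L} (hx : Wv A χ x) (m n : ℤ) (hχ : χ = (m : ℝ) • al + (n : ℝ) • be)
    (hmn : m ≠ 0 ∨ n ≠ 0) (hB : ∀ p ∈ lBC2, ¬((p.1 : ℤ) = m ∧ (p.2 : ℤ) = n) ∧ ¬(-(p.1 : ℤ) = m ∧ -(p.2 : ℤ) = n)) : x = 0 := by
  rw [hχ] at hx
  exact hx.eq_zero (c.nr hB) (c.ne hmn)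

/-- The scalar products with `be`. -/
theorem Two.act (c : Two θ b A τ al be ν) {χ : Module.Dual ℝ A} {x z : L} (hx : Wv A be x) (hz : Wv A χ z) (m n : ℤ)
    (hχ : χ = (m : ℝ) • al + (n : ℝ) • be) : ⁅⁅x, θ x⁆, z⁆ = (((m : ℝ) - n) * ip θ ν x x) • z := by
  have h1 : χ (τ be) = ((n : ℝ) - m) * ν := by
    rw [hχ, LinearMap.add_apply, LinearMap.smul_apply, LinearMap.smul_apply, smul_eq_mul, smul_eq_mul, c.hi.ab, c.hi.bb]
    ring
  rw [theta_lie c.hτ c.h c.hA c.hi.pos h1 hx hz]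
  congr 1
  ring

/-- `[θ x, [x, z]] = -z`. -/
theorem Two.xz (c : Two θ b A τ al be ν) {x z : L} (hx : Wv A be x) (hz : Wv A al z) : ⁅θ x, ⁅x, z⁆⁆ = -(ip θ ν x x) • z := by
  have e1 : ⁅θ x, z⁆ = 0 := c.zero ((hx.theta c.hA).lie hz) 1 (-1) (by push_cast; module) (by decide) (by decide)
  have h2 := c.act hx hz 1 0 (by push_cast; module)
  rw [lie_lie, e1, lie_zero, zero_sub] at h2
  rw [← neg_neg ⁅θ x, ⁅x, z⁆⁆, h2, ← neg_smul]
  congr 1
  push_cast
  ring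

/-- `[θ x, [x, [x, z]]] = -[x, z]`. -/
theorem Two.xxz (c : Two θ b A τ al be ν) {x z : L} (hx : Wv A be x) (hz : Wv A al z) :
    ⁅θ x, ⁅x, ⁅x, z⁆⁆⁆ = -(ip θ ν x x) • ⁅x, z⁆ := by
  have h2 := c.act hx (hx.lie hz) 1 1 (by push_cast; module)
  rw [lie_lie, c.xz hx hz, lie_smul] at h2
  have h3 : (((1 : ℤ) : ℝ) - ((1 : ℤ) : ℝ)) * ip θ ν x x = 0 := by ring
  rw [h3, zero_smul, sub_eq_zero] at h2
  exact h2.symm

/-- `[x, [θ x, t]] = -t`. -/
theorem Two.xt (c : Two θ b A τ al be ν) {x t : L} (hx : Wv A be x) (ht : Wv A (al + (2 : ℝ) • be) t) :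
    ⁅x, ⁅θ x, t⁆⁆ = -(ip θ ν x x) • t := by
  have e1 : ⁅x, t⁆ = 0 := c.zero (hx.lie ht) 1 3 (by push_cast; module) (by decide) (by decide)
  have h2 := c.act hx ht 1 2 (by push_cast; module)
  rw [lie_lie, e1, lie_zero, sub_zero] at h2
  rw [h2]
  congr 1
  push_cast
  ring

/-- `[x, [θ x, [θ x, t]]] = -[θ x, t]`. -/
theorem Two.xtt (c : Two θ b A τ al be ν) {x t : L} (hx : Wv A be x) (ht : Wv A (al + (2 : ℝ) • be) t) :
    ⁅x, ⁅θ x, ⁅θ x, t⁆⁆⁆ = -(ip θ ν x x) • ⁅θ x, t⁆ := by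
  have h2 := c.act hx ((hx.theta c.hA).lie ht) 1 1 (by push_cast; module)
  rw [lie_lie, c.xt hx ht, lie_smul] at h2
  have h3 : (((1 : ℤ) : ℝ) - ((1 : ℤ) : ℝ)) * ip θ ν x x = 0 := by ring
  rw [h3, zero_smul, sub_eq_zero] at h2
  exact h2

/-- `[x, z]`, `x ∈ g_be`, `z ∈ g_al`. -/
def mm (A : Submodule ℝ L) (al be : Module.Dual ℝ A) : rsp A be →ₗ[ℝ] rsp A al →ₗ[ℝ] rsp A (al + be) := brk A be al (al + be) (add_comm _ _)

theorem mm_apply (x : rsp A be) (z : rsp A al) : ((mm A al be x z : rsp A (al + be)) : L) = ⁅(x : L), (z : L)⁆ := rfl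

/-- `-[θ x, t]`, `x ∈ g_be`, `t ∈ g_(al + 2 be)`. -/
def nn (hA : MaxFlat θ A) (al be : Module.Dual ℝ A) : rsp A be →ₗ[ℝ] rsp A (al + (2 : ℝ) • be) →ₗ[ℝ] rsp A (al + be) :=
  -(brk A (-be) (al + (2 : ℝ) • be) (al + be) (by module)).comp (thr hA be (-be) rfl)

theorem nn_apply {hA : MaxFlat θ A} (x : rsp A be) (t : rsp A (al + (2 : ℝ) • be)) :
    ((nn hA al be x t : rsp A (al + be)) : L) = -⁅θ (x : L), (t : L)⁆ := rfl

theorem Two.norm_mm (c : Two θ b A τ al be ν) :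
    letI := nacg c.h c.hi.pos
    letI := ips c.h c.hi.pos
    ∀ (x : rsp A be) (z : rsp A al), ‖mm A al be x z‖ = ‖x‖ * ‖z‖ := by
  letI := nacg c.h c.hi.pos
  letI := ips c.h c.hi.pos
  intro x z
  refine norm_lie c.hτ c.h c.hA c.hi.pos ?_ ?_ c.hi.ab x.2 z.2
  · have := c.ne (m := -1) (n := 1) (by decide)
    intro h1
    apply this
    rw [← h1]
    push_cast
    module
  · have := c.nr (m := -1) (n := 1) (by decide)
    intro h1
    apply this
    convert h1 using 1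
    push_cast
    module

theorem Two.norm_nn (c : Two θ b A τ al be ν) :
    letI := nacg c.h c.hi.pos
    letI := ips c.h c.hi.pos
    ∀ (x : rsp A be) (t : rsp A (al + (2 : ℝ) • be)), ‖nn c.hA al be x t‖ = ‖x‖ * ‖t‖ := by
  letI := nacg c.h c.hi.pos
  letI := ips c.h c.hi.pos
  intro x t
  have h1 : ‖⁅θ (x : L), (t : L)⁆‖ = ‖θ (x : L)‖ * ‖(t : L)‖ := by
    refine norm_lie c.hτ c.h c.hA c.hi.pos ?_ ?_ ?_ (Wv.theta c.hA x.2) t.2
    · have := c.ne (m := -1) (n := -3) (by decide)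
      intro h1
      apply this
      rw [← h1]
      push_cast
      module
    · have := c.nr (m := -1) (n := -3) (by decide)
      intro h1
      apply this
      convert h1 using 1
      push_cast
      module
    · rw [map_neg, map_neg, LinearMap.add_apply, LinearMap.smul_apply, c.hi.ab, c.hi.bb, smul_eq_mul]
      ring
  have h2 : ‖θ (x : L)‖ = ‖(x : L)‖ := by
    have h3 : ‖θ (x : L)‖ ^ 2 = ‖(x : L)‖ ^ 2 := by
      rw [← real_inner_self_eq_norm_sq, ← real_inner_self_eq_norm_sq]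
      exact ip_theta c.h ν _ _
    exact (pow_left_inj₀ (norm_nonneg _) (norm_nonneg _) two_ne_zero).1 h3
  rw [h2] at h1
  change ‖((nn c.hA al be x t : rsp A (al + be)) : L)‖ = ‖(x : L)‖ * ‖(t : L)‖
  rw [nn_apply, norm_neg, h1]

theorem Two.f1 (c : Two θ b A τ al be ν) :
    letI := nacg c.h c.hi.pos
    letI := ips c.h c.hi.pos
    ∀ (x : rsp A be) (z : rsp A al), ‖x‖ = 1 → ∃ t, nn c.hA al be x t = mm A al be x z ∧ (t : L) = ⁅(x : L), ⁅(x : L), (z : L)⁆⁆ := by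
  letI := nacg c.h c.hi.pos
  letI := ips c.h c.hi.pos
  intro x z hx
  have hx1 : ip θ ν (x : L) (x : L) = 1 := by
    have h1 : ⟪x, x⟫ = 1 := by rw [real_inner_self_eq_norm_sq, hx, one_pow]
    exact h1
  refine ⟨⟨⁅(x : L), ⁅(x : L), (z : L)⁆⁆, ?_⟩, Subtype.ext ?_, rfl⟩
  · have h1 : Wv A (be + (be + al)) ⁅(x : L), ⁅(x : L), (z : L)⁆⁆ := Wv.lie x.2 (Wv.lie x.2 z.2)
    have h2 : be + (be + al) = al + (2 : ℝ) • be := by module
    rw [h2] at h1
    exact h1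
  · rw [nn_apply, mm_apply]
    change -⁅θ (x : L), ⁅(x : L), ⁅(x : L), (z : L)⁆⁆⁆ = _
    rw [c.xxz x.2 z.2, hx1, neg_one_smul, neg_neg]

theorem Two.f2 (c : Two θ b A τ al be ν) :
    letI := nacg c.h c.hi.pos
    letI := ips c.h c.hi.pos
    ∀ (x : rsp A be) (t : rsp A (al + (2 : ℝ) • be)), ‖x‖ = 1 → ∃ z, mm A al be x z = nn c.hA al be x t := by
  letI := nacg c.h c.hi.pos
  letI := ips c.h c.hi.pos
  intro x t hx
  have hx1 : ip θ ν (x : L) (x : L) = 1 := by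
    have h1 : ⟪x, x⟫ = 1 := by rw [real_inner_self_eq_norm_sq, hx, one_pow]
    exact h1
  refine ⟨⟨⁅θ (x : L), ⁅θ (x : L), (t : L)⁆⁆, ?_⟩, Subtype.ext ?_⟩
  · have h1 : Wv A (-be + (-be + (al + (2 : ℝ) • be))) ⁅θ (x : L), ⁅θ (x : L), (t : L)⁆⁆ :=
      Wv.lie (Wv.theta c.hA x.2) (Wv.lie (Wv.theta c.hA x.2) t.2)
    have h2 : -be + (-be + (al + (2 : ℝ) • be)) = al := by module
    rw [h2] at h1
    exact h1
  · rw [nn_apply, mm_apply]
    change ⁅(x : L), ⁅θ (x : L), ⁅θ (x : L), (t : L)⁆⁆⁆ = _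
    rw [c.xtt x.2 t.2, hx1, neg_one_smul]

/-- The two root spaces have the same dimension. -/
theorem Two.finrank_U (c : Two θ b A τ al be ν) (hal : al ∈ rootsL A) : finrank ℝ (rsp A (al + be)) = finrank ℝ (rsp A be) := by
  have hf : Module.Finite ℝ L := Module.Finite.of_basis b
  letI := nacg c.h c.hi.pos
  letI := ips c.h c.hi.pos
  obtain ⟨-, z, hz0, hz⟩ := hal
  have hzn : ‖(⟨z, hz⟩ : rsp A al)‖ ≠ 0 := by
    rw [norm_ne_zero_iff]
    intro h1
    exact hz0 (congrArg Subtype.val h1)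
  refine le_antisymm ?_ ?_
  · -- `u ↦ [θ z, u]`
    let f : rsp A (al + be) →ₗ[ℝ] rsp A be := brk A (-al) (al + be) be (by module) ⟨θ z, Wv.theta c.hA hz⟩
    refine LinearMap.finrank_le_finrank_of_injective (f := f) ?_
    rw [injective_iff_map_eq_zero]
    intro u hu
    have h1 : ⁅θ z, (u : L)⁆ = 0 := congrArg Subtype.val hu
    have h2 : ‖⁅θ z, (u : L)⁆‖ = ‖θ z‖ * ‖(u : L)‖ := by
      refine norm_lie c.hτ c.h c.hA c.hi.pos ?_ ?_ ?_ (Wv.theta c.hA hz) u.2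
      · have := c.ne (m := -2) (n := -1) (by decide)
        intro h1
        apply this
        rw [← h1]
        push_cast
        module
      · have := c.nr (m := -2) (n := -1) (by decide)
        intro h1
        apply this
        convert h1 using 1
        push_cast
        module
      · rw [map_neg, map_neg, LinearMap.add_apply, c.hi.aa, c.hi.ba]
        ring
    rw [h1, norm_zero] at h2
    rcases mul_eq_zero.1 h2.symm with h3 | h3
    · exfalso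
      apply hz0
      have h4 := norm_eq_zero.1 h3
      rw [← c.h.invol z, h4, map_zero]
    · exact Subtype.ext (norm_eq_zero.1 h3)
  · refine LinearMap.finrank_le_finrank_of_injective (f := (mm A al be).flip ⟨z, hz⟩) ?_
    refine inj_of_norm hzn fun x => ?_
    rw [LinearMap.flip_apply, c.norm_mm, mul_comm]

/-- The symmetric form of `B_2`: `⟪n x t, m y z⟫ = ip t [x, [y, z]]`. -/
theorem Two.inner_nm (c : Two θ b A τ al be ν) (x y : rsp A be) (z : rsp A al) (t : rsp A (al + (2 : ℝ) • be)) :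
    letI := nacg c.h c.hi.pos
    letI := ips c.h c.hi.pos
    ⟪nn c.hA al be x t, mm A al be y z⟫ = ip θ ν (t : L) ⁅(x : L), ⁅(y : L), (z : L)⁆⁆ := by
  letI := nacg c.h c.hi.pos
  letI := ips c.h c.hi.pos
  change ip θ ν (-⁅θ (x : L), (t : L)⁆) ⁅(y : L), (z : L)⁆ = _
  rw [← neg_one_smul ℝ ⁅θ (x : L), (t : L)⁆, ip_smul, ip_adj c.h, c.h.invol]
  ring

/-- **The data of type `B_2`.** -/
theorem Two.b2d (c : Two θ b A τ al be ν) (hB : be + be ∉ rootsL A) :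
    letI := nacg c.h c.hi.pos
    letI := ips c.h c.hi.pos
    B2d (mm A al be) (nn c.hA al be) := by
  letI := nacg c.h c.hi.pos
  letI := ips c.h c.hi.pos
  refine ⟨c.norm_mm, c.norm_nn, fun x y z t => ?_, fun x z hx => ?_, c.f2⟩
  · rw [c.inner_nm, c.inner_nm]
    have h1 : ⁅(x : L), (y : L)⁆ = 0 := by
      have h2 : Wv A (be + be) ⁅(x : L), (y : L)⁆ := Wv.lie x.2 y.2
      refine h2.eq_zero hB ?_
      have h3 := c.ne (m := 0) (n := 2) (by decide)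
      intro h4
      apply h3
      rw [← h4]
      push_cast
      module
    rw [leibniz_lie, h1, zero_lie, zero_add]
  · obtain ⟨t, ht, -⟩ := c.f1 x z hx
    exact ⟨t, ht⟩

end Pool.Agent.Helper95.AE
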