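import Pool.Agent.Helper95.AE.BCf
import Pool.Agent.Helper68.AE.BCE
import Pool.Agent.Helper68.AE.BC3
import Pool.Agent.Helper25.AE.Fin

/-!
# Project MP_0f6f3f_an, layer AE (algebraic end): type `BC_2`, the end

`Two.C`: the part `C_2` of `BC_2`. `bcDim`: the dimensions of an edge of type `BC_2` are at least two. `bc_hZ`: the dimensions `(dim g_al, dim g_(2 be))`.
`BCd.uniq`: the dimensions determine the data of type `BC_2`. `bcEdge`: the edges of type `BC_2`. `ae_final`: **two simple real Lie algebras of real rank at least two with the same Cartan integers and the same multiplicities of the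
simple restricted roots and their doubles are isomorphic.**
-/

set_option autoImplicit false
set_option linter.unusedSectionVars false
set_option linter.style.haveILetI false

namespace Pool.Agent.Helper95.AE

open Module Pool.Agent.Helper96.SA Pool.Agent.Helper96.TO Pool.Agent.Helper69.SLN Pool.Agent.Helper77.LA Pool.Agent.Helper77.ST Pool.Agent.Helper77.TZ2
open Pool.Agent.Helper25.AE Pool.Agent.Helper68.AE

open scoped RealInnerProductSpace

variable {L : Type} [LieRing L] [LieAlgebra ℝ L] {N : ℕ} {θ : L ≃ₗ⁅ℝ⁆ L} {b : Module.Basis (Fin N) ℝ L} {A : Submodule ℝ L}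
  {τ : Module.Dual ℝ A ≃ₗ[ℝ] A} {ν : ℝ} {al be : Module.Dual ℝ A}

/-- The part `C_2` of `BC_2`. -/
theorem Two.C (c : Two θ b A τ al be ν) : Two θ b A τ ((2 : ℝ) • be) al (2 * ν) where
  h := c.h
  hA := c.hA
  hτ := c.hτ
  ind s t hst := by
    obtain ⟨h1, h2⟩ := c.ind t (2 * s) (by
      rw [← hst]
      module)
    exact ⟨by linarith, h1⟩
  hi := by
    have hi := c.hi
    refine ⟨by linarith [hi.pos], hi.aa, ?_, ?_, ?_⟩
    · rw [LinearMap.smul_apply, hi.ba, smul_eq_mul]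
      ring
    · rw [map_smul, map_smul, hi.ab, smul_eq_mul]
      ring
    · rw [map_smul, map_smul, LinearMap.smul_apply, hi.bb, smul_eq_mul, smul_eq_mul]
  hn m n hB := by
    have h1 : (m : ℝ) • (2 : ℝ) • be + (n : ℝ) • al = (n : ℝ) • al + ((2 * m : ℤ) : ℝ) • be := by
      push_cast
      module
    rw [h1]
    refine c.hn _ _ fun p hp => ?_
    have e1 := hB (0, 1) (by decide)
    have e2 := hB (1, 0) (by decide)
    have e3 := hB (1, 1) (by decide)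
    have e4 := hB (1, 2) (by decide)
    simp only [lBC2, List.mem_cons, List.not_mem_nil, or_false] at hp
    rcases hp with rfl | rfl | rfl | rfl | rfl | rfl <;> simp only [Nat.cast_zero, Nat.cast_one, Nat.cast_ofNat] at e1 e2 e3 e4 ⊢ <;> omega

theorem nontrivial_rsp {φ : Module.Dual ℝ A} (h : φ ∈ rootsL A) : Nontrivial (rsp A φ) := by
  obtain ⟨-, x, hx0, hx⟩ := h
  exact ⟨⟨⟨x, hx⟩, 0, fun h4 => hx0 (congrArg Subtype.val h4)⟩⟩

/-- The dimensions of an edge of type `BC_2`. -/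
theorem bcDim : BCDim θ b A τ := by
  intro al be ν c hal hbe h2
  have hf : Module.Finite ℝ L := Module.Finite.of_basis b
  letI := nacg c.h c.hi.pos
  letI := ips c.h c.hi.pos
  have n1 := nontrivial_rsp hal
  have n2 := nontrivial_rsp hbe
  have n3 := nontrivial_rsp h2
  obtain ⟨h3, h4⟩ := (Two.bcd c).two_le (c.finrank_U hal)
  exact ⟨h4, h3⟩

theorem bc_hZ (c : Two θ b A τ al be ν) (hal : al ∈ rootsL A) (h2 : be + be ∈ rootsL A) : finrank ℝ (rsp A (be + be)) = 1 ∨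
    (finrank ℝ (rsp A al) = 2 ∧ finrank ℝ (rsp A (be + be)) = 2) ∨ (finrank ℝ (rsp A al) = 4 ∧ finrank ℝ (rsp A (be + be)) = 3) := by
  have h3 : be + be = (2 : ℝ) • be := (two_smul ℝ be).symm
  rw [h3] at h2 ⊢
  exact b2_dims c.C (two_long c) h2 hal

section

variable {V W U T Z : Type*} [NormedAddCommGroup V] [InnerProductSpace ℝ V] [NormedAddCommGroup W] [InnerProductSpace ℝ W]
    [NormedAddCommGroup U] [InnerProductSpace ℝ U] [NormedAddCommGroup T] [InnerProductSpace ℝ T] [NormedAddCommGroup Z] [InnerProductSpace ℝ Z]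
    {m : V →ₗ[ℝ] W →ₗ[ℝ] U} {n : V →ₗ[ℝ] T →ₗ[ℝ] U} {I : Z →ₗ[ℝ] V →ₗ[ℝ] V} {K : Z →ₗ[ℝ] W →ₗ[ℝ] T} {c : V →ₗ[ℝ] V →ₗ[ℝ] Z}
    {V' W' U' T' Z' : Type*} [NormedAddCommGroup V'] [InnerProductSpace ℝ V'] [NormedAddCommGroup W'] [InnerProductSpace ℝ W']
    [NormedAddCommGroup U'] [InnerProductSpace ℝ U'] [NormedAddCommGroup T'] [InnerProductSpace ℝ T'] [NormedAddCommGroup Z']
    [InnerProductSpace ℝ Z'] {m' : V' →ₗ[ℝ] W' →ₗ[ℝ] U'} {n' : V' →ₗ[ℝ] T' →ₗ[ℝ] U'} {I' : Z' →ₗ[ℝ] V' →ₗ[ℝ] V'} {K' : Z' →ₗ[ℝ] W' →ₗ[ℝ] T'}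
    {c' : V' →ₗ[ℝ] V' →ₗ[ℝ] Z'}
  [FiniteDimensional ℝ V] [FiniteDimensional ℝ W] [FiniteDimensional ℝ U] [FiniteDimensional ℝ T] [FiniteDimensional ℝ Z]
  [FiniteDimensional ℝ V'] [FiniteDimensional ℝ W'] [FiniteDimensional ℝ U'] [FiniteDimensional ℝ T'] [FiniteDimensional ℝ Z']

/-- **Uniqueness in type `BC_2`.** -/
theorem BCd.uniq [Nontrivial V] [Nontrivial W] (hB : BCd m n I K c) (hB' : BCd m' n' I' K' c') (hd : finrank ℝ U = finrank ℝ V)
    (hd' : finrank ℝ U' = finrank ℝ V') (hZ : finrank ℝ Z = 1 ∨ (finrank ℝ W = 2 ∧ finrank ℝ Z = 2) ∨ (finrank ℝ W = 4 ∧ finrank ℝ Z = 3))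
    (hV : finrank ℝ V = finrank ℝ V') (hW : finrank ℝ W = finrank ℝ W') (hZ' : finrank ℝ Z = finrank ℝ Z') :
    ∃ (f : V ≃ₗᵢ[ℝ] V') (g : W ≃ₗᵢ[ℝ] W') (ψ : Z ≃ₗᵢ[ℝ] Z'),
      (∀ x y z w, ⟪m' (f x) (g z), m' (f y) (g w)⟫ = ⟪m x z, m y w⟫) ∧ ∀ x y, c' (f x) (f y) = ψ (c x y) := by
  rcases hZ with h1 | ⟨h1, h2⟩ | ⟨h1, h2⟩
  · exact hB.uniq1 hB' hd hd' h1 hV hW hZ'
  · have h3 := hB.lt hd
    omega
  · exact Pool.Agent.Helper68.AE.uniq3 hB hB' hd hd' h1 h2 (by omega) (by omega) hV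

end

variable {L' : Type} [LieRing L'] [LieAlgebra ℝ L'] {N' : ℕ} {θ' : L' ≃ₗ⁅ℝ⁆ L'}
  {b' : Module.Basis (Fin N') ℝ L'} {A' : Submodule ℝ L'} {τ' : Module.Dual ℝ A' ≃ₗ[ℝ] A'}

/-- **The edges of type `BC_2`.** -/
theorem bcEdge : BCEdge θ θ' b b' A A' τ τ' := by
  intro al be ν al' be' ν' c c' hal hbe h2 hal' hbe' h2' d1 d2 d3
  have hf : Module.Finite ℝ L := Module.Finite.of_basis b
  have hf' : Module.Finite ℝ L' := Module.Finite.of_basis b'
  refine bc_edge_of c c' ?_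
  letI := nacg c.h c.hi.pos
  letI := ips c.h c.hi.pos
  letI := nacg c'.h c'.hi.pos
  letI := ips c'.h c'.hi.pos
  have n1 := nontrivial_rsp hal
  have n2 := nontrivial_rsp hbe
  exact (Two.bcd c).uniq (Two.bcd c') (c.finrank_U hal) (c'.finrank_U hal') (bc_hZ c hal h2) d2 d1 d3

/-- **The final theorem of the layer AE.** -/
theorem ae_final {ι : Type} [Fintype ι] [Nontrivial ι] [LieAlgebra.IsSimple ℝ L] [LieAlgebra.IsSimple ℝ L'] {al : ι → Module.Dual ℝ A}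
    {al' : ι → Module.Dual ℝ A'} (s : SD θ b A τ al) (s' : SD θ' b' A' τ' al')
    (hC : ∀ i j, al j (τ (al i)) * al' i (τ' (al' i)) = al' j (τ' (al' i)) * al i (τ (al i)))
    (hd : ∀ i, finrank ℝ (rsp A (al i)) = finrank ℝ (rsp A' (al' i)))
    (hd2 : ∀ i, finrank ℝ (rsp A (al i + al i)) = finrank ℝ (rsp A' (al' i + al' i))) : ∃ e : L ≃ₗ⁅ℝ⁆ L', ∀ x, e (θ x) = θ' (e x) :=
  ae_fin s s' hC hd hd2 bcDim bcDim bcEdge

end Pool.Agent.Helper95.AE
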