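import Pool.Agent.Helper95.AE.B2

/-!
# Project MP_0f6f3f_an, layer AE (algebraic end): the linear algebra of type `BC_2`

`BCd m n I K c`: `V`, `W`, `U`, `T`, `Z` stand for the root spaces of the short simple root `be`, the medium simple root `al`, `al + be`, `al + 2 be`, `2 be`, with the scalar product of `be`;
`m x z = [x, z]`, `n x t = -[θ x, t]`, `I ζ x = [θ x, ζ] / √2`, `K ζ z = [ζ, z] / √2`, `c x y = [x, y] / √2`.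
-/

set_option autoImplicit false
set_option linter.unusedSectionVars false

namespace Pool.Agent.Helper95.AE

open Module

open scoped RealInnerProductSpace

/-- The data of type `BC_2`. -/
structure BCd {V W U T Z : Type*} [NormedAddCommGroup V] [InnerProductSpace ℝ V] [NormedAddCommGroup W] [InnerProductSpace ℝ W]
    [NormedAddCommGroup U] [InnerProductSpace ℝ U] [NormedAddCommGroup T] [InnerProductSpace ℝ T] [NormedAddCommGroup Z] [InnerProductSpace ℝ Z]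
    (m : V →ₗ[ℝ] W →ₗ[ℝ] U) (n : V →ₗ[ℝ] T →ₗ[ℝ] U) (I : Z →ₗ[ℝ] V →ₗ[ℝ] V) (K : Z →ₗ[ℝ] W →ₗ[ℝ] T) (c : V →ₗ[ℝ] V →ₗ[ℝ] Z) : Prop where
  nm : ∀ x z, ‖m x z‖ = ‖x‖ * ‖z‖
  nn : ∀ x t, ‖n x t‖ = ‖x‖ * ‖t‖
  f1 : ∀ x z, ‖x‖ = 1 → ∃ t, n x t = m x z
  f2 : ∀ x t, ‖x‖ = 1 → ∃ z, m x z = n x t
  nI : ∀ ζ x, ‖I ζ x‖ = ‖ζ‖ * ‖x‖
  cI : ∀ ζ x y, ⟪I ζ x, y⟫ = -⟪ζ, c x y⟫
  cs : ∀ x y, c x y = -c y x
  nK : ∀ ζ z, ‖K ζ z‖ = ‖ζ‖ * ‖z‖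
  nIK : ∀ x ζ z, n x (K ζ z) = -m (I ζ x) z
  sy : ∀ x y z t, ⟪n x t, m y z⟫ - ⟪n y t, m x z⟫ = 2 * ⟪t, K (c x y) z⟫
  der : ∀ z0 z, ‖z0‖ = 1 → ⟪z, z0⟫ = 0 → ∀ J : V →ₗ[ℝ] V, (∀ x, m (J x) z0 = m x z) → ∀ ζ, ∃ ζ', ∀ x, J (I ζ x) = I ζ (J x) + I ζ' x

end Pool.Agent.Helper95.AE
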