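import Pool.Agent.Helper95.AE.BCs

/-!
# Project MP_0f6f3f_an, layer AE (algebraic end): type `BC_2`, the dimensions

`BCd.lt`: `dim Z < dim W`. `BCd.two_le`: `2 ≤ dim V`, `2 ≤ dim W`.
-/

set_option autoImplicit false
set_option linter.unusedSectionVars false

namespace Pool.Agent.Helper95.AE

open Module

open scoped RealInnerProductSpace

variable {V W U T Z : Type*} [NormedAddCommGroup V] [InnerProductSpace ℝ V] [NormedAddCommGroup W] [InnerProductSpace ℝ W]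
    [NormedAddCommGroup U] [InnerProductSpace ℝ U] [NormedAddCommGroup T] [InnerProductSpace ℝ T] [NormedAddCommGroup Z] [InnerProductSpace ℝ Z]
    {m : V →ₗ[ℝ] W →ₗ[ℝ] U} {n : V →ₗ[ℝ] T →ₗ[ℝ] U} {I : Z →ₗ[ℝ] V →ₗ[ℝ] V} {K : Z →ₗ[ℝ] W →ₗ[ℝ] T} {c : V →ₗ[ℝ] V →ₗ[ℝ] Z}
    {J : W →ₗ[ℝ] V →ₗ[ℝ] V} {D : T →ₗ[ℝ] V →ₗ[ℝ] V} {z0 : W}
    [FiniteDimensional ℝ V] [FiniteDimensional ℝ W] [FiniteDimensional ℝ U] [FiniteDimensional ℝ T] [FiniteDimensional ℝ Z]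

theorem BCd.lt [Nontrivial V] [Nontrivial W] (hB : BCd m n I K c) (hd : finrank ℝ U = finrank ℝ V) : finrank ℝ Z < finrank ℝ W := by
  obtain ⟨z0, hz0⟩ := exists_norm_eq W zero_le_one
  obtain ⟨C, J, D, -, -, h⟩ := hB.base hd hz0
  have hinj : Function.Injective (K.flip z0) := inj_of_norm one_ne_zero fun ζ => by
    rw [LinearMap.flip_apply, hB.nK, hz0, mul_comm]
  have h1 : finrank ℝ Z ≤ finrank ℝ T := LinearMap.finrank_le_finrank_of_injective hinj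
  have h2 := hB.finrank_T
  by_contra h3
  obtain ⟨x, hx⟩ := exists_norm_eq V zero_le_one
  obtain ⟨t, ht, -, ht0⟩ := h.fix x hx
  obtain ⟨ζ, hζ⟩ := (LinearMap.injective_iff_surjective_of_finrank_eq_finrank (by omega)).1 hinj t
  have h4 := ht0 ζ
  rw [LinearMap.flip_apply] at hζ
  rw [hζ, real_inner_self_eq_norm_sq, ht, one_pow] at h4
  exact one_ne_zero h4

theorem BCd.two_le [Nontrivial V] [Nontrivial W] [Nontrivial Z] (hB : BCd m n I K c) (hd : finrank ℝ U = finrank ℝ V) :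
    2 ≤ finrank ℝ V ∧ 2 ≤ finrank ℝ W := by
  have h1 := hB.lt hd
  have h2 : 0 < finrank ℝ Z := Module.finrank_pos
  refine ⟨?_, by omega⟩
  obtain ⟨z0, hz0⟩ := exists_norm_eq W zero_le_one
  obtain ⟨C, J, D, -, -, h⟩ := hB.base hd hz0
  obtain ⟨x, hx⟩ := exists_norm_eq V zero_le_one
  obtain ⟨ζ, hζ⟩ := exists_norm_eq Z zero_le_one
  have h3 : ⟪I ζ x, x⟫ = 0 := by
    have h4 := h.skew ζ x x
    rw [real_inner_comm x (I ζ x)] at h4 ⊢
    linarith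
  have h5 : Orthonormal ℝ ![x, I ζ x] := by
    rw [orthonormal_iff_ite]
    intro i j
    have h4 : ⟪x, I ζ x⟫ = 0 := by rw [real_inner_comm, h3]
    fin_cases i <;> fin_cases j <;> simp [hx, hζ, h3, h4, h.nI]
  exact card_le_on h5

end Pool.Agent.Helper95.AE
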