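import Pool.Agent.Helper95.AE.CX
import Pool.Agent.Helper95.AE.Mod

/-!
# Project MP_0f6f3f_an, layer AE (algebraic end): uniqueness in type `BC_2`, `dim g_(2 be) = 1`

`CX.two`, `CX.std4`, `CX.std6`: normal forms for `dim W = 2, 4, 6`. `CX.uniq`: the dimensions determine `J` and `I` up to isometries.
-/

set_option autoImplicit false
set_option linter.unusedSectionVars false

namespace Pool.Agent.Helper95.AE

open Module

open scoped RealInnerProductSpace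

section

variable {W V : Type*} [NormedAddCommGroup W] [InnerProductSpace ℝ W] [NormedAddCommGroup V] [InnerProductSpace ℝ V]
  {J : W →ₗ[ℝ] V →ₗ[ℝ] V} {z0 : W} {I : V →ₗ[ℝ] V}

theorem CX.on2 (h : CX J z0 I) {x : V} (hx : ‖x‖ = 1) : Orthonormal ℝ fun i => (![LinearMap.id, I] : Fin 2 → V →ₗ[ℝ] V) i x := by
  have h1 : ⟪I x, x⟫ = 0 := h.self_I x
  have h2 : ⟪x, I x⟫ = 0 := by rw [real_inner_comm, h1]
  rw [orthonormal_iff_ite]
  intro i j
  fin_cases i <;> fin_cases j <;> simp [hx, h1, h2, h.nI]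

theorem CX.tab2 (h : CX J z0 I) (i j : Fin 2) : ∃ l, ∃ s : ℝ, ∀ x y,
    ⟪(![LinearMap.id, I] : Fin 2 → V →ₗ[ℝ] V) i x, (![LinearMap.id, I] : Fin 2 → V →ₗ[ℝ] V) j y⟫ =
      s * ⟪(![LinearMap.id, I] : Fin 2 → V →ₗ[ℝ] V) l x, y⟫ := by
  fin_cases i <;> fin_cases j
  · exact ⟨0, 1, fun x y => by simp⟩
  · exact ⟨1, -1, fun x y => by simp [h.skew_I]⟩
  · exact ⟨1, 1, fun x y => by simp⟩
  · exact ⟨0, 1, fun x y => by simp [h.inner_I]⟩

theorem CX.mul2 (h : CX J z0 I) (i j : Fin 2) (x : V) : (![LinearMap.id, I] : Fin 2 → V →ₗ[ℝ] V) i ((![LinearMap.id, I] : Fin 2 → V →ₗ[ℝ] V) j x) =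
    (![![1, 1], ![1, -1]] : Fin 2 → Fin 2 → ℝ) i j • (![LinearMap.id, I] : Fin 2 → V →ₗ[ℝ] V) ((![![0, 1], ![1, 0]] : Fin 2 → Fin 2 → Fin 2) i j) x := by
  fin_cases i <;> fin_cases j <;> simp [h.I2]

variable [FiniteDimensional ℝ W] [FiniteDimensional ℝ V] [Nontrivial V]

/-- The normal form for `dim W = 2`. -/
theorem CX.two (h : CX J z0 I) (hW : finrank ℝ W = 2) : ∃ b : OrthonormalBasis (Fin 2) ℝ W, b 0 = z0 ∧ ∀ x, J (b 1) x = I x := by
  obtain ⟨v, z, hv, hz, hz0, hz1⟩ := h.frame2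
  obtain ⟨b, hb⟩ := exists_basis_of hz (by rw [hW, Fintype.card_fin])
  have hZ : finrank ℝ (ℝ ∙ z0)ᗮ + 1 = finrank ℝ W := by
    have hz00 : z0 ≠ 0 := by
      rintro rfl
      have := h.hz
      rw [norm_zero] at this
      exact zero_ne_one this
    have h2 := (ℝ ∙ z0).finrank_add_finrank_orthogonal
    rw [finrank_span_singleton hz00] at h2
    omega
  have h10 : ⟪z0, z 1⟫ = 0 := by
    rw [← hz0]
    exact hz.2 (by decide)
  refine ⟨b, by rw [hb, hz0], fun x => ?_⟩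
  rw [hb]
  rcases h.sys.one (by omega) (t := ⟨z 1, Submodule.mem_orthogonal_singleton_iff_inner_right.2 h10⟩) (hz.1 1) with h3 | h3
  · have h4 := h3 x
    rw [CX.S_apply] at h4
    change -J (z 1) (I x) = x at h4
    rw [h.cm] at h4
    have h5 := congrArg I h4
    rw [map_neg, h.I2, neg_neg] at h5
    exact h5
  · exfalso
    have h4 := h3 v
    rw [CX.S_apply] at h4
    change -J (z 1) (I v) = -v at h4
    rw [h.cm, hz1, h.I2, neg_neg] at h4
    have h5 : (2 : ℝ) • v = 0 := by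
      rw [two_smul]
      nth_rewrite 1 [h4]
      exact neg_add_cancel v
    rw [(smul_eq_zero.1 h5).resolve_left two_ne_zero, norm_zero] at hv
    exact zero_ne_one hv

/-- The normal form for `dim W = 4`. -/
theorem CX.std4 (h : CX J z0 I) (hV : finrank ℝ V = 4) (hW : finrank ℝ W = 4) :
    ∃ (e : OrthonormalBasis (Fin 4) ℝ V) (b : OrthonormalBasis (Fin 4) ℝ W), b 0 = z0 ∧
      (∀ i j, J (b i) (e j) = (![![1, 1, 1, 1], ![1, -1, -1, 1], ![1, 1, -1, -1], ![1, -1, 1, -1]] : Fin 4 → Fin 4 → ℝ) i j •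
        e ((![![0, 1, 2, 3], ![1, 0, 3, 2], ![2, 3, 0, 1], ![3, 2, 1, 0]] : Fin 4 → Fin 4 → Fin 4) i j)) ∧
      ∀ j, I (e j) = (![1, -1, 1, -1] : Fin 4 → ℝ) j • e ((![1, 0, 3, 2] : Fin 4 → Fin 4) j) := by
  obtain ⟨v, z, hv, hz, hz0, hz1, hz3⟩ := h.frame4 (by omega)
  obtain ⟨b, hb⟩ := exists_basis_of hz (by rw [hW, Fintype.card_fin])
  have he : Orthonormal ℝ fun i => J (z i) v := by
    rw [orthonormal_iff_ite] at hz ⊢
    intro i j
    rw [pol_left h.nm.nrm, hv, one_pow, mul_one, hz]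
  obtain ⟨e, he⟩ := exists_basis_of he (by rw [hV, Fintype.card_fin])
  have p : ∀ i : Fin 4, i ≠ 0 → ⟪z i, z0⟫ = 0 := fun i hi => by
    rw [← hz0]
    exact hz.2 hi
  have a1 : ∀ x, J (z 1) (J (z 2) x) = -J (z 2) (J (z 1) x) := fun x => h.nm.anti (p 1 (by decide)) (p 2 (by decide)) (hz.2 (by decide)) x
  have a4 : ∀ x, J (z 3) (J (z 2) x) = -J (z 2) (J (z 3) x) := fun x => h.nm.anti (p 3 (by decide)) (p 2 (by decide)) (hz.2 (by decide)) x
  have s2 : ∀ x, J (z 2) (J (z 2) x) = -x := fun x => by rw [h.nm.sq (p 2 (by decide)), hz.1, one_pow, one_smul]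
  have e0 : e 0 = v := by rw [he, hz0, h.nm.one]
  have e1 : e 1 = I v := by rw [he, hz1]
  have e2 : e 2 = J (z 2) v := by rw [he]
  have e3 : e 3 = I (J (z 2) v) := by rw [he, hz3]
  refine ⟨e, b, by rw [hb, hz0], fun i j => ?_, fun j => ?_⟩
  · fin_cases i <;> fin_cases j <;> simp [hb, hz0, h.nm.one, e0, e1, e2, e3, a1, a4, s2, h.cm, h.I2, hz1, hz3]
  · fin_cases j <;> simp [e0, e1, e2, e3, h.I2]

/-- The normal form for `dim W = 6`. -/
theorem CX.std6 (h : CX J z0 I) (hV : finrank ℝ V = 8) (hW : finrank ℝ W = 6) :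
    ∃ (e : OrthonormalBasis (Fin 8) ℝ V) (b : OrthonormalBasis (Fin 6) ℝ W), b 0 = z0 ∧
      (∀ i j, J (b i) (e j) = (![![1, 1, 1, 1, 1, 1, 1, 1], ![1, -1, -1, 1, -1, 1, 1, -1], ![1, 1, -1, -1, 1, 1, -1, -1],
        ![1, -1, 1, -1, 1, -1, 1, -1], ![1, 1, -1, -1, -1, -1, 1, 1], ![1, -1, -1, 1, 1, -1, -1, 1]] : Fin 6 → Fin 8 → ℝ) i j •
        e ((![![0, 1, 2, 3, 4, 5, 6, 7], ![1, 0, 3, 2, 5, 4, 7, 6], ![2, 3, 0, 1, 6, 7, 4, 5], ![3, 2, 1, 0, 7, 6, 5, 4],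
          ![4, 5, 6, 7, 0, 1, 2, 3], ![5, 4, 7, 6, 1, 0, 3, 2]] : Fin 6 → Fin 8 → Fin 8) i j)) ∧
      ∀ j, I (e j) = (![1, -1, 1, -1, 1, -1, 1, -1] : Fin 8 → ℝ) j • e ((![1, 0, 3, 2, 5, 4, 7, 6] : Fin 8 → Fin 8) j) := by
  obtain ⟨v, z, hv, hz, hz0, hz1, hz3, hz5⟩ := h.frame6 (by omega)
  obtain ⟨b, hb⟩ := exists_basis_of hz (by rw [hW, Fintype.card_fin])
  have p : ∀ i : Fin 6, i ≠ 0 → ⟪z i, z0⟫ = 0 := fun i hi => by
    rw [← hz0]
    exact hz.2 hi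
  have an : ∀ i j : Fin 6, i ≠ 0 → j ≠ 0 → i ≠ j → ∀ x, J (z i) (J (z j) x) = -J (z j) (J (z i) x) := fun i j hi hj hij x =>
    h.nm.anti (p i hi) (p j hj) (hz.2 hij) x
  have a12 := an 1 2 (by decide) (by decide) (by decide)
  have a14 := an 1 4 (by decide) (by decide) (by decide)
  have a32 := an 3 2 (by decide) (by decide) (by decide)
  have a34 := an 3 4 (by decide) (by decide) (by decide)
  have a52 := an 5 2 (by decide) (by decide) (by decide)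
  have a54 := an 5 4 (by decide) (by decide) (by decide)
  have a42 := an 4 2 (by decide) (by decide) (by decide)
  have s2 : ∀ x, J (z 2) (J (z 2) x) = -x := fun x => by rw [h.nm.sq (p 2 (by decide)), hz.1, one_pow, one_smul]
  have s4 : ∀ x, J (z 4) (J (z 4) x) = -x := fun x => by rw [h.nm.sq (p 4 (by decide)), hz.1, one_pow, one_smul]
  have hF : ∀ i j : Fin 6, ⟪J (z i) v, J (z j) v⟫ = if i = j then (1 : ℝ) else 0 := by
    intro i j
    rw [pol_left h.nm.nrm, hv, one_pow, mul_one]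
    exact orthonormal_iff_ite.1 hz i j
  have he0 : Orthonormal ℝ fun i => J (z i) v := orthonormal_iff_ite.2 hF
  have f0 : J (z 0) v = v := by rw [hz0, h.nm.one]
  have hw : ∀ i, ⟪J (z 2) (J (z 4) v), J (z i) v⟫ = 0 := by
    intro i
    have g : ∀ i j : Fin 6, i ≠ j → ⟪J (z i) v, J (z j) v⟫ = 0 := fun i j hij => by rw [hF, if_neg hij]
    fin_cases i
    · change ⟪J (z 2) (J (z 4) v), J (z 0) v⟫ = 0
      rw [f0, h.nm.skew (p 2 (by decide)), g 4 2 (by decide), neg_zero]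
    · change ⟪J (z 2) (J (z 4) v), J (z 1) v⟫ = 0
      rw [hz1, h.nm.skew (p 2 (by decide)), h.cm, ← hz3, g 4 3 (by decide), neg_zero]
    · change ⟪J (z 2) (J (z 4) v), J (z 2) v⟫ = 0
      rw [h.nm.inner_left, ← f0, f0, h.nm.inner_self (p 4 (by decide)), mul_zero]
    · change ⟪J (z 2) (J (z 4) v), J (z 3) v⟫ = 0
      rw [hz3, ← h.cm, h.nm.inner_left, ← hz1, g 4 1 (by decide), mul_zero]
    · change ⟪J (z 2) (J (z 4) v), J (z 4) v⟫ = 0
      have h1 := a42 v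
      have h2 : J (z 2) (J (z 4) v) = -J (z 4) (J (z 2) v) := by rw [h1, neg_neg]
      rw [h2, inner_neg_left, h.nm.inner_left, h.nm.inner_self (p 2 (by decide)), mul_zero, neg_zero]
    · change ⟪J (z 2) (J (z 4) v), J (z 5) v⟫ = 0
      have h1 := a42 v
      have h2 : J (z 2) (J (z 4) v) = -J (z 4) (J (z 2) v) := by rw [h1, neg_neg]
      rw [h2, hz5, ← h.cm, inner_neg_left, h.nm.inner_left, ← hz1, g 2 1 (by decide), mul_zero, neg_zero]
  have hn : ‖J (z 2) (J (z 4) v)‖ = 1 := by rw [h.nm.nrm, h.nm.nrm, hz.1, hz.1, hv, one_mul, one_mul]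
  have he1 := on_snoc he0 hn hw
  have he2 := on_snoc he1 (u := I (J (z 2) (J (z 4) v))) (by rw [h.nI, hn]) fun i => by
    rw [h.skew_I]
    fin_cases i
    · change -⟪J (z 2) (J (z 4) v), I (J (z 0) v)⟫ = 0
      rw [f0, ← hz1, hw, neg_zero]
    · change -⟪J (z 2) (J (z 4) v), I (J (z 1) v)⟫ = 0
      have h0 := hw 0
      rw [f0] at h0
      rw [hz1, h.I2, inner_neg_right, h0, neg_zero, neg_zero]
    · change -⟪J (z 2) (J (z 4) v), I (J (z 2) v)⟫ = 0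
      rw [← hz3, hw, neg_zero]
    · change -⟪J (z 2) (J (z 4) v), I (J (z 3) v)⟫ = 0
      rw [hz3, h.I2, inner_neg_right, hw, neg_zero, neg_zero]
    · change -⟪J (z 2) (J (z 4) v), I (J (z 4) v)⟫ = 0
      rw [← hz5, hw, neg_zero]
    · change -⟪J (z 2) (J (z 4) v), I (J (z 5) v)⟫ = 0
      rw [hz5, h.I2, inner_neg_right, hw, neg_zero, neg_zero]
    · change -⟪J (z 2) (J (z 4) v), I (J (z 2) (J (z 4) v))⟫ = 0
      rw [real_inner_comm, h.self_I, neg_zero]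
  obtain ⟨e, he⟩ := exists_basis_of he2 (by rw [hV, Fintype.card_fin])
  have e0 : e 0 = v := by
    rw [he]
    exact f0
  have e1 : e 1 = I v := by
    rw [he]
    exact hz1
  have e2 : e 2 = J (z 2) v := by
    rw [he]
    rfl
  have e3 : e 3 = I (J (z 2) v) := by
    rw [he]
    exact hz3
  have e4 : e 4 = J (z 4) v := by
    rw [he]
    rfl
  have e5 : e 5 = I (J (z 4) v) := by
    rw [he]
    exact hz5
  have e6 : e 6 = J (z 2) (J (z 4) v) := by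
    rw [he]
    rfl
  have e7 : e 7 = I (J (z 2) (J (z 4) v)) := by
    rw [he]
    rfl
  refine ⟨e, b, by rw [hb, hz0], fun i j => ?_, fun j => ?_⟩
  · fin_cases i <;> fin_cases j <;>
      simp [hb, hz0, h.nm.one, e0, e1, e2, e3, e4, e5, e6, e7, a12, a14, a32, a34, a52, a54, a42, s2, s4, h.cm, h.I2, hz1, hz3, hz5]
  · fin_cases j <;> simp [e0, e1, e2, e3, e4, e5, e6, e7, h.I2]

end

section

variable {W V W' V' : Type*} [NormedAddCommGroup W] [InnerProductSpace ℝ W] [NormedAddCommGroup V] [InnerProductSpace ℝ V]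
  [NormedAddCommGroup W'] [InnerProductSpace ℝ W'] [NormedAddCommGroup V'] [InnerProductSpace ℝ V']
  {J : W →ₗ[ℝ] V →ₗ[ℝ] V} {z0 : W} {J' : W' →ₗ[ℝ] V' →ₗ[ℝ] V'} {z0' : W'} {I : V →ₗ[ℝ] V} {I' : V' →ₗ[ℝ] V'}
  [FiniteDimensional ℝ W] [FiniteDimensional ℝ V] [FiniteDimensional ℝ W'] [FiniteDimensional ℝ V']

/-- **Uniqueness.** -/
theorem CX.uniq [Nontrivial V] (h : CX J z0 I) (h' : CX J' z0' I') (hV : finrank ℝ V = finrank ℝ V') (hW : finrank ℝ W = finrank ℝ W') :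
    ∃ (f : V ≃ₗᵢ[ℝ] V') (g : W ≃ₗᵢ[ℝ] W'), (∀ z x, f (J z x) = J' (g z) (f x)) ∧ ∀ x, f (I x) = I' (f x) := by
  have hp : 0 < finrank ℝ V := Module.finrank_pos
  have hV' : Nontrivial V' := Module.nontrivial_of_finrank_pos (R := ℝ) (by omega)
  rcases h.dims with h1 | ⟨h1, h2⟩ | ⟨h1, h2⟩
  · obtain ⟨b, hb0, hb1⟩ := h.two h1
    obtain ⟨b', hb0', hb1'⟩ := h'.two (by omega)
    obtain ⟨f, hf⟩ := uniq_mod (fun x hx => h.on2 hx) h.tab2 (fun x hx => h'.on2 hx) h'.tab2 _ _ h.mul2 h'.mul2 hV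
    have hf1 : ∀ x, f (I x) = I' (f x) := hf 1
    obtain ⟨g, -, hg⟩ := inter_of_gen (J := J) (J' := J') b b' f fun i x => by
      fin_cases i
      · change f (J (b 0) x) = J' (b' 0) (f x)
        rw [hb0, hb0', h.nm.one, h'.nm.one]
      · change f (J (b 1) x) = J' (b' 1) (f x)
        rw [hb1, hb1', hf1]
    exact ⟨f, g, hg, hf1⟩
  · obtain ⟨e, b, -, h3, h4⟩ := h.std4 h1 h2
    obtain ⟨e', b', -, h3', h4'⟩ := h'.std4 (by omega) (by omega)
    obtain ⟨f, g, hf, -, hg⟩ := inter_of_basis e e' b b' _ _ h3 h3'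
    exact ⟨f, g, hg, inter_one e e' hf _ _ h4 h4'⟩
  · obtain ⟨e, b, -, h3, h4⟩ := h.std6 h1 h2
    obtain ⟨e', b', -, h3', h4'⟩ := h'.std6 (by omega) (by omega)
    obtain ⟨f, g, hf, -, hg⟩ := inter_of_basis e e' b b' _ _ h3 h3'
    exact ⟨f, g, hg, inter_one e e' hf _ _ h4 h4'⟩

end

end Pool.Agent.Helper95.AE
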