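import Pool.Agent.Helper95.AE.BC
import Pool.Agent.Helper95.AE.CXU

/-!
# Project MP_0f6f3f_an, layer AE (algebraic end): type `BC_2`, the operators

`BCs J D I K c z0`: the operators `J z x = C⁻¹ (m x z)`, `D t x = C⁻¹ (n x t)`, `C x = m x z0`. `BCd.base`. `BCs.cx`: if `dim Z = 1` then `I ζ1` is a complex structure with `CX`. `BCd.uniq_of`: the reduction of uniqueness.
`BCd.uniq1`: uniqueness for `dim Z = 1`.
-/

set_option autoImplicit false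
set_option linter.unusedSectionVars false

namespace Pool.Agent.Helper95.AE

open Module

open scoped RealInnerProductSpace

section

variable {V W U T Z : Type*} [NormedAddCommGroup V] [InnerProductSpace ℝ V] [NormedAddCommGroup W] [InnerProductSpace ℝ W]
    [NormedAddCommGroup U] [InnerProductSpace ℝ U] [NormedAddCommGroup T] [InnerProductSpace ℝ T] [NormedAddCommGroup Z] [InnerProductSpace ℝ Z]
    {m : V →ₗ[ℝ] W →ₗ[ℝ] U} {n : V →ₗ[ℝ] T →ₗ[ℝ] U} {I : Z →ₗ[ℝ] V →ₗ[ℝ] V} {K : Z →ₗ[ℝ] W →ₗ[ℝ] T} {c : V →ₗ[ℝ] V →ₗ[ℝ] Z}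
    {J : W →ₗ[ℝ] V →ₗ[ℝ] V} {D : T →ₗ[ℝ] V →ₗ[ℝ] V} {z0 : W}

/-- The operators of type `BC_2`. -/
structure BCs (J : W →ₗ[ℝ] V →ₗ[ℝ] V) (D : T →ₗ[ℝ] V →ₗ[ℝ] V) (I : Z →ₗ[ℝ] V →ₗ[ℝ] V) (K : Z →ₗ[ℝ] W →ₗ[ℝ] T)
    (c : V →ₗ[ℝ] V →ₗ[ℝ] Z) (z0 : W) : Prop where
  hz : ‖z0‖ = 1
  nm : NM J z0
  nD : ∀ t x, ‖D t x‖ = ‖t‖ * ‖x‖
  nI : ∀ ζ x, ‖I ζ x‖ = ‖ζ‖ * ‖x‖
  cI : ∀ ζ x y, ⟪I ζ x, y⟫ = -⟪ζ, c x y⟫
  cs : ∀ x y, c x y = -c y x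
  nK : ∀ ζ z, ‖K ζ z‖ = ‖ζ‖ * ‖z‖
  DK : ∀ ζ z x, D (K ζ z) x = -J z (I ζ x)
  sy : ∀ t z x y, ⟪D t x, J z y⟫ - ⟪D t y, J z x⟫ = 2 * ⟪t, K (c x y) z⟫
  fix : ∀ x, ‖x‖ = 1 → ∃ t, ‖t‖ = 1 ∧ D t x = x ∧ ∀ ζ, ⟪t, K ζ z0⟫ = 0
  der : ∀ z, ⟪z, z0⟫ = 0 → ∀ ζ, ∃ ζ', ∀ x, J z (I ζ x) = I ζ (J z x) + I ζ' x

theorem BCs.skew (h : BCs J D I K c z0) (ζ : Z) (x y : V) : ⟪I ζ x, y⟫ = -⟪x, I ζ y⟫ := by
  rw [h.cI, h.cs, inner_neg_right, neg_neg, real_inner_comm _ x, h.cI, neg_neg]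

theorem BCs.sq (h : BCs J D I K c z0) (ζ : Z) (x : V) : I ζ (I ζ x) = -(‖ζ‖ ^ 2 • x) := by
  refine ext_inner' fun y => ?_
  rw [h.skew, pol_right h.nI, inner_neg_left, inner_smul_left]
  simp

theorem BCs.DK0 (h : BCs J D I K c z0) (ζ : Z) (x : V) : D (K ζ z0) x = -I ζ x := by rw [h.DK, h.nm.one]

/-- The map `D t` is symmetric if `t` is orthogonal to the `K ζ z0`. -/
theorem BCs.symm (h : BCs J D I K c z0) {t : T} (ht : ∀ ζ, ⟪t, K ζ z0⟫ = 0) (x y : V) : ⟪D t x, y⟫ = ⟪x, D t y⟫ := by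
  have h1 := h.sy t z0 x y
  rw [h.nm.one, h.nm.one, ht, mul_zero, sub_eq_zero] at h1
  rw [h1, real_inner_comm]

variable [FiniteDimensional ℝ V] [FiniteDimensional ℝ W] [FiniteDimensional ℝ U] [FiniteDimensional ℝ T] [FiniteDimensional ℝ Z]

theorem BCd.finrank_T [Nontrivial V] (hB : BCd m n I K c) : finrank ℝ T = finrank ℝ W := by
  obtain ⟨x, hx⟩ := exists_norm_eq V zero_le_one
  refine le_antisymm ?_ ?_
  · exact finrank_le_of_factor (f := n x) (g := m x) (inj_of_norm one_ne_zero fun t => by rw [hB.nn, hx]) fun t => hB.f2 x t hx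
  · exact finrank_le_of_factor (f := m x) (g := n x) (inj_of_norm one_ne_zero fun t => by rw [hB.nm, hx]) fun z => hB.f1 x z hx

/-- **The operators.** -/
theorem BCd.base (hB : BCd m n I K c) (hd : finrank ℝ U = finrank ℝ V) {z0 : W} (hz0 : ‖z0‖ = 1) :
    ∃ (C : V ≃ₗᵢ[ℝ] U) (J : W →ₗ[ℝ] V →ₗ[ℝ] V) (D : T →ₗ[ℝ] V →ₗ[ℝ] V), (∀ z x, C (J z x) = m x z) ∧ (∀ t x, C (D t x) = n x t) ∧
      BCs J D I K c z0 := by
  obtain ⟨C, J, hC, hJ, hCJ⟩ := exists_nm hB.nm hd hz0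
  let D : T →ₗ[ℝ] V →ₗ[ℝ] V := n.flip.compr₂ (C.symm.toLinearEquiv : U →ₗ[ℝ] V)
  have hD : ∀ t x, C (D t x) = n x t := fun t x => C.apply_symm_apply _
  have nD : ∀ t x, ‖D t x‖ = ‖t‖ * ‖x‖ := by
    intro t x
    rw [← C.norm_map, hD, hB.nn, mul_comm]
  have DK : ∀ ζ z x, D (K ζ z) x = -J z (I ζ x) := by
    intro ζ z x
    apply C.injective
    rw [hD, hB.nIK, map_neg, hCJ]
  refine ⟨C, J, D, hCJ, hD, hz0, hJ, nD, hB.nI, hB.cI, hB.cs, hB.nK, DK, fun t z x y => ?_, fun x hx => ?_, fun z hz ζ => ?_⟩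
  · rw [← C.inner_map_map, ← C.inner_map_map (D t y), hD, hD, hCJ, hCJ, hB.sy]
  · obtain ⟨t, ht⟩ := hB.f1 x z0 hx
    have h1 : D t x = x := by
      apply C.injective
      rw [hD, ht, hC]
    have h2 := nD t x
    rw [h1, hx, mul_one] at h2
    refine ⟨t, h2.symm, h1, fun ζ => ?_⟩
    have h3 := pol_left nD t (K ζ z0) x
    rw [h1, DK, hJ.one, hx, one_pow, mul_one, inner_neg_right, real_inner_comm, hB.cI] at h3
    have h4 : c x x = 0 := by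
      have h5 := hB.cs x x
      have h6 : (2 : ℝ) • c x x = 0 := by
        rw [two_smul]
        nth_rewrite 1 [h5]
        exact neg_add_cancel _
      exact (smul_eq_zero.1 h6).resolve_left two_ne_zero
    rw [h4, inner_zero_right, neg_zero, neg_zero] at h3
    exact h3.symm
  · exact hB.der z0 z hz0 hz (J z) (fun x => by rw [← hC, hCJ]) ζ

/-- The complex structure. -/
theorem BCs.cx (h : BCs J D I K c z0) (hT : finrank ℝ T = finrank ℝ W) (hZ : finrank ℝ Z = 1) {ζ1 : Z} (h1 : ‖ζ1‖ = 1) : CX J z0 (I ζ1) := by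
  have hI2 : ∀ x, I ζ1 (I ζ1 x) = -x := fun x => by rw [h.sq, h1, one_pow, one_smul]
  have hc0 : ζ1 ≠ 0 := by
    rintro rfl
    rw [norm_zero] at h1
    exact zero_ne_one h1
  have hsp : ∀ ζ : Z, ∃ a : ℝ, a • ζ1 = ζ := fun ζ => (finrank_eq_one_iff_of_nonzero' ζ1 hc0).1 hZ ζ
  have cm0 : ∀ z, ⟪z, z0⟫ = 0 → ∀ x, J z (I ζ1 x) = I ζ1 (J z x) := by
    intro z hz x
    refine ext_inner' fun y => ?_
    have h2 := h.sy (K ζ1 z0) z x y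
    obtain ⟨a, ha⟩ := hsp (c x y)
    rw [h.DK0, h.DK0, ← ha, map_smul, LinearMap.smul_apply, inner_smul_right, pol_right h.nK, real_inner_comm z z0, hz, mul_zero,
      mul_zero, mul_zero, inner_neg_left, inner_neg_left, h.skew, h.skew ζ1 y] at h2
    rw [h.nm.skew hz, h.skew, h.skew, neg_neg, neg_neg] at *
    have h3 := h.nm.skew hz x (I ζ1 y)
    have h4 : ⟪y, I ζ1 (J z x)⟫ = -⟪J z x, I ζ1 y⟫ := by
      rw [real_inner_comm, h.skew]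
    linarith
  refine ⟨h.nm, h.hz, fun x => by rw [h.nI, h1, one_mul], hI2, fun z x => ?_, fun x hx => ?_⟩
  · have h2 : z = ⟪z, z0⟫ • z0 + (z - ⟪z, z0⟫ • z0) := by abel
    have h3 : ⟪z - ⟪z, z0⟫ • z0, z0⟫ = 0 := by
      rw [inner_sub_left, inner_smul_left, real_inner_self_eq_norm_sq, h.hz]
      simp
    rw [h2, map_add, LinearMap.add_apply, LinearMap.add_apply, map_smul, LinearMap.smul_apply, LinearMap.smul_apply, h.nm.one, h.nm.one,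
      cm0 _ h3, map_add, map_smul]
  · obtain ⟨t, ht, htx, ht0⟩ := h.fix x hx
    have hinj : Function.Injective (K ζ1) := inj_of_norm one_ne_zero fun z => by rw [h.nK, h1]
    obtain ⟨z, hz⟩ := (LinearMap.injective_iff_surjective_of_finrank_eq_finrank hT.symm).1 hinj t
    have hz1 : ‖z‖ = 1 := by
      have h2 := h.nK ζ1 z
      rw [hz, ht, h1, one_mul] at h2
      exact h2.symm
    have hz2 : ⟪z, z0⟫ = 0 := by
      have h2 := pol_right h.nK ζ1 z z0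
      rw [hz, ht0, h1, one_pow, one_mul] at h2
      exact h2.symm
    refine ⟨z, hz1, hz2, ?_⟩
    rw [← hz, h.DK, cm0 z hz2] at htx
    have h3 := congrArg (I ζ1) htx
    rw [map_neg, hI2, neg_neg] at h3
    exact h3

end

section

variable {V W U T Z : Type*} [NormedAddCommGroup V] [InnerProductSpace ℝ V] [NormedAddCommGroup W] [InnerProductSpace ℝ W]
    [NormedAddCommGroup U] [InnerProductSpace ℝ U] [NormedAddCommGroup T] [InnerProductSpace ℝ T] [NormedAddCommGroup Z] [InnerProductSpace ℝ Z]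
    {m : V →ₗ[ℝ] W →ₗ[ℝ] U} {n : V →ₗ[ℝ] T →ₗ[ℝ] U} {I : Z →ₗ[ℝ] V →ₗ[ℝ] V} {K : Z →ₗ[ℝ] W →ₗ[ℝ] T} {c : V →ₗ[ℝ] V →ₗ[ℝ] Z}
    {V' W' U' T' Z' : Type*} [NormedAddCommGroup V'] [InnerProductSpace ℝ V'] [NormedAddCommGroup W'] [InnerProductSpace ℝ W']
    [NormedAddCommGroup U'] [InnerProductSpace ℝ U'] [NormedAddCommGroup T'] [InnerProductSpace ℝ T'] [NormedAddCommGroup Z']
    [InnerProductSpace ℝ Z'] {m' : V' →ₗ[ℝ] W' →ₗ[ℝ] U'} {n' : V' →ₗ[ℝ] T' →ₗ[ℝ] U'} {I' : Z' →ₗ[ℝ] V' →ₗ[ℝ] V'} {K' : Z' →ₗ[ℝ] W' →ₗ[ℝ] T'}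
    {c' : V' →ₗ[ℝ] V' →ₗ[ℝ] Z'}

/-- The reduction of uniqueness. -/
theorem BCd.uniq_of (hB : BCd m n I K c) (hB' : BCd m' n' I' K' c') {C : V ≃ₗᵢ[ℝ] U} {J : W →ₗ[ℝ] V →ₗ[ℝ] V} (hC : ∀ z x, C (J z x) = m x z)
    {C' : V' ≃ₗᵢ[ℝ] U'} {J' : W' →ₗ[ℝ] V' →ₗ[ℝ] V'} (hC' : ∀ z x, C' (J' z x) = m' x z) (f : V ≃ₗᵢ[ℝ] V') (g : W ≃ₗᵢ[ℝ] W')
    (ψ : Z ≃ₗᵢ[ℝ] Z') (h1 : ∀ z x, f (J z x) = J' (g z) (f x)) (h2 : ∀ ζ x, f (I ζ x) = I' (ψ ζ) (f x)) :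
    (∀ x y z w, ⟪m' (f x) (g z), m' (f y) (g w)⟫ = ⟪m x z, m y w⟫) ∧ ∀ x y, c' (f x) (f y) = ψ (c x y) := by
  refine ⟨fun x y z w => ?_, fun x y => ?_⟩
  · rw [← hC', ← hC', C'.inner_map_map, ← h1, ← h1, f.inner_map_map, ← C.inner_map_map, hC, hC]
  · refine ext_inner_left ℝ fun η => ?_
    obtain ⟨ζ, rfl⟩ := ψ.surjective η
    have h3 := hB'.cI (ψ ζ) (f x) (f y)
    rw [← h2, f.inner_map_map, hB.cI, neg_inj] at h3
    rw [ψ.inner_map_map, h3]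

variable [FiniteDimensional ℝ V] [FiniteDimensional ℝ W] [FiniteDimensional ℝ U] [FiniteDimensional ℝ T] [FiniteDimensional ℝ Z]
  [FiniteDimensional ℝ V'] [FiniteDimensional ℝ W'] [FiniteDimensional ℝ U'] [FiniteDimensional ℝ T'] [FiniteDimensional ℝ Z']

/-- **Uniqueness, `dim Z = 1`.** -/
theorem BCd.uniq1 [Nontrivial V] [Nontrivial W] (hB : BCd m n I K c) (hB' : BCd m' n' I' K' c') (hd : finrank ℝ U = finrank ℝ V)
    (hd' : finrank ℝ U' = finrank ℝ V') (hZ : finrank ℝ Z = 1) (hV : finrank ℝ V = finrank ℝ V') (hW : finrank ℝ W = finrank ℝ W')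
    (hZ' : finrank ℝ Z = finrank ℝ Z') : ∃ (f : V ≃ₗᵢ[ℝ] V') (g : W ≃ₗᵢ[ℝ] W') (ψ : Z ≃ₗᵢ[ℝ] Z'),
      (∀ x y z w, ⟪m' (f x) (g z), m' (f y) (g w)⟫ = ⟪m x z, m y w⟫) ∧ ∀ x y, c' (f x) (f y) = ψ (c x y) := by
  have hV1 : 0 < finrank ℝ V := Module.finrank_pos
  have hW1 : 0 < finrank ℝ W := Module.finrank_pos
  have nV' : Nontrivial V' := Module.nontrivial_of_finrank_pos (R := ℝ) (by omega)
  have nW' : Nontrivial W' := Module.nontrivial_of_finrank_pos (R := ℝ) (by omega)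
  have nZ : Nontrivial Z := Module.nontrivial_of_finrank_pos (R := ℝ) (by omega)
  have nZ' : Nontrivial Z' := Module.nontrivial_of_finrank_pos (R := ℝ) (by omega)
  obtain ⟨z0, hz0⟩ := exists_norm_eq W zero_le_one
  obtain ⟨z0', hz0'⟩ := exists_norm_eq W' zero_le_one
  obtain ⟨ζ1, hζ1⟩ := exists_norm_eq Z zero_le_one
  obtain ⟨ζ1', hζ1'⟩ := exists_norm_eq Z' zero_le_one
  obtain ⟨C, J, D, hC, -, h⟩ := hB.base hd hz0
  obtain ⟨C', J', D', hC', -, h'⟩ := hB'.base hd' hz0'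
  have hx := h.cx hB.finrank_T hZ hζ1
  have hx' := h'.cx hB'.finrank_T (by omega) hζ1'
  obtain ⟨f, g, h1, h2⟩ := hx.uniq hx' hV hW
  obtain ⟨b, hb⟩ := exists_basis_first (k := 0) (by omega) hζ1
  obtain ⟨b', hb'⟩ := exists_basis_first (k := 0) (by omega) hζ1'
  obtain ⟨ψ, -, h3⟩ := inter_of_gen (J := I) (J' := I') b b' f fun i x => by
    fin_cases i
    change f (I (b 0) x) = I' (b' 0) (f x)
    rw [hb, hb', h2]
  exact ⟨f, g, ψ, hB.uniq_of hB' hC hC' f g ψ h1 h3⟩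

end

end Pool.Agent.Helper95.AE
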