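import Pool.Agent.Helper95.AE.Clf

/-!
# Project MP_0f6f3f_an, layer AE (algebraic end): the linear algebra of type `BC_2`, `dim g_(2 be) = 1`

`CX J z0 I`: a normed module `J` with a commuting complex structure `I` such that for every unit vector `x` there is a unit vector `z` orthogonal to `z0` with `J z x = I x`. `CX.dims`: `dim W = 2`, or
`(dim V, dim W)` is `(4, 4)` or `(8, 6)`. `CX.uniq`: uniqueness.
-/

set_option autoImplicit false
set_option linter.unusedSectionVars false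

namespace Pool.Agent.Helper95.AE

open Module

open scoped RealInnerProductSpace

section

variable {W V : Type*} [NormedAddCommGroup W] [InnerProductSpace ℝ W] [NormedAddCommGroup V] [InnerProductSpace ℝ V]

/-- A normed module with a commuting complex structure. -/
structure CX (J : W →ₗ[ℝ] V →ₗ[ℝ] V) (z0 : W) (I : V →ₗ[ℝ] V) : Prop where
  nm : NM J z0
  hz : ‖z0‖ = 1
  nI : ∀ x, ‖I x‖ = ‖x‖
  I2 : ∀ x, I (I x) = -x
  cm : ∀ z x, J z (I x) = I (J z x)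
  fix : ∀ x, ‖x‖ = 1 → ∃ z, ‖z‖ = 1 ∧ ⟪z, z0⟫ = 0 ∧ J z x = I x

variable {J : W →ₗ[ℝ] V →ₗ[ℝ] V} {z0 : W} {I : V →ₗ[ℝ] V}

theorem CX.inner_I (h : CX J z0 I) (x y : V) : ⟪I x, I y⟫ = ⟪x, y⟫ := by
  have h1 := h.nI (x + y)
  have h2 : ‖I (x + y)‖ ^ 2 = ‖x + y‖ ^ 2 := by rw [h1]
  rw [map_add, norm_add_sq_real, norm_add_sq_real, h.nI, h.nI] at h2
  linarith

theorem CX.skew_I (h : CX J z0 I) (x y : V) : ⟪I x, y⟫ = -⟪x, I y⟫ := by
  rw [← h.inner_I, h.I2, inner_neg_left]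

theorem CX.self_I (h : CX J z0 I) (x : V) : ⟪I x, x⟫ = 0 := by
  have h1 := h.skew_I x x
  rw [real_inner_comm x (I x)] at h1 ⊢
  linarith

theorem mem_perp (z : (ℝ ∙ z0)ᗮ) : ⟪(z : W), z0⟫ = 0 := by
  rw [real_inner_comm]
  exact Submodule.mem_orthogonal_singleton_iff_inner_right.1 z.2

/-- The symmetric involutions. -/
noncomputable def CX.S (J : W →ₗ[ℝ] V →ₗ[ℝ] V) (z0 : W) (I : V →ₗ[ℝ] V) : (ℝ ∙ z0)ᗮ →ₗ[ℝ] V →ₗ[ℝ] V :=
  -(J.compl₂ I).comp ((ℝ ∙ z0)ᗮ).subtype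

theorem CX.S_apply (z : (ℝ ∙ z0)ᗮ) (x : V) : CX.S J z0 I z x = -J (z : W) (I x) := rfl

theorem CX.sys (h : CX J z0 I) : Sys (CX.S J z0 I) := by
  refine ⟨fun z x y => ?_, fun z x => ?_, fun x hx => ?_⟩
  · rw [CX.S_apply, CX.S_apply, inner_neg_left, inner_neg_right, h.nm.skew (mem_perp z), h.skew_I, ← h.cm, neg_neg]
  · rw [CX.S_apply, CX.S_apply, h.cm (z : W) x, map_neg, h.I2, neg_neg, h.nm.sq (mem_perp z), neg_neg]
    rfl
  · obtain ⟨z, hz1, hz2, hz3⟩ := h.fix x hx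
    refine ⟨⟨z, Submodule.mem_orthogonal_singleton_iff_inner_right.2 (by rw [real_inner_comm]; exact hz2)⟩, hz1, ?_⟩
    rw [CX.S_apply]
    change -J z (I x) = x
    rw [h.cm, hz3, h.I2, neg_neg]

theorem CX.surj (h : CX J z0 I) {z1 : W} (h1 : ‖z1‖ = 1) (h0 : ⟪z1, z0⟫ = 0) {v w : V} (hv : ‖v‖ = 1) (hv1 : J z1 v = I v)
    (hw : J z1 w = -I w) : ∃ s, ⟪s, z0⟫ = 0 ∧ ⟪s, z1⟫ = 0 ∧ J s v = w := by
  have e1 : CX.S J z0 I ⟨z1, Submodule.mem_orthogonal_singleton_iff_inner_right.2 (by rw [real_inner_comm]; exact h0)⟩ v = v := by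
    rw [CX.S_apply]
    change -J z1 (I v) = v
    rw [h.cm, hv1, h.I2, neg_neg]
  have e2 : CX.S J z0 I ⟨z1, Submodule.mem_orthogonal_singleton_iff_inner_right.2 (by rw [real_inner_comm]; exact h0)⟩ (-I w) = -(-I w) := by
    rw [CX.S_apply]
    change -J z1 (I (-I w)) = -(-I w)
    rw [map_neg, h.I2, neg_neg, hw]
  obtain ⟨s, hs1, hs2⟩ := h.sys.surj (by exact h1) hv e1 e2
  refine ⟨s, mem_perp s, hs1, ?_⟩
  rw [CX.S_apply, h.cm, neg_inj] at hs2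
  have h3 := congrArg I hs2
  rw [h.I2, h.I2, neg_inj] at h3
  exact h3

/-- The partner of a vector. -/
theorem CX.partner (h : CX J z0 I) {z1 : W} (h1 : ‖z1‖ = 1) (h0 : ⟪z1, z0⟫ = 0) {v : V} (hv : ‖v‖ = 1) (hv1 : J z1 v = I v) {z : W}
    (hz : ‖z‖ = 1) (hz0 : ⟪z, z0⟫ = 0) (hz1 : ⟪z, z1⟫ = 0) : ∃ s, ‖s‖ = 1 ∧ ⟪s, z0⟫ = 0 ∧ ⟪s, z1⟫ = 0 ∧ ⟪s, z⟫ = 0 ∧ J s v = I (J z v) := by
  obtain ⟨s, hs0, hs1, hs2⟩ := h.surj h1 h0 hv hv1 (w := I (J z v)) (by
    rw [h.cm, h.nm.anti h0 hz0 (by rw [real_inner_comm]; exact hz1), hv1, map_neg, h.cm])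
  have hn := h.nm.nrm s v
  rw [hs2, h.nI, h.nm.nrm, hz, hv, one_mul, mul_one] at hn
  refine ⟨s, hn.symm, hs0, hs1, ?_, hs2⟩
  have h2 := pol_left h.nm.nrm s z v
  rw [hs2, h.self_I, hv, one_pow, mul_one] at h2
  exact h2.symm

theorem exists_perp' [FiniteDimensional ℝ W] {k : ℕ} (e : Fin k → W) (hk : k < finrank ℝ W) : ∃ u : W, ‖u‖ = 1 ∧ ∀ i, ⟪u, e i⟫ = 0 := by
  have h1 : finrank ℝ (Submodule.span ℝ (Set.range e)) ≤ k := (finrank_range_le_card e).trans (by rw [Fintype.card_fin])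
  have h2 := (Submodule.span ℝ (Set.range e)).finrank_add_finrank_orthogonal
  have h3 : 0 < finrank ℝ (Submodule.span ℝ (Set.range e))ᗮ := by omega
  have h4 : Nontrivial (Submodule.span ℝ (Set.range e))ᗮ := Module.nontrivial_of_finrank_pos h3
  obtain ⟨u, hu⟩ := exists_norm_eq (Submodule.span ℝ (Set.range e))ᗮ zero_le_one
  refine ⟨u, hu, fun i => ?_⟩
  rw [real_inner_comm]
  exact (Submodule.mem_orthogonal _ _).1 u.2 _ (Submodule.subset_span ⟨i, rfl⟩)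

theorem on_snoc {k : ℕ} {e : Fin k → W} (he : Orthonormal ℝ e) {u : W} (hu : ‖u‖ = 1) (h : ∀ i, ⟪u, e i⟫ = 0) :
    Orthonormal ℝ (Fin.snoc e u : Fin (k + 1) → W) := by
  rw [orthonormal_iff_ite] at he ⊢
  intro i j
  induction i using Fin.lastCases with
  | last =>
    induction j using Fin.lastCases with
    | last => rw [Fin.snoc_last, if_pos rfl, real_inner_self_eq_norm_sq, hu, one_pow]
    | cast j => rw [Fin.snoc_last, Fin.snoc_castSucc, if_neg (Fin.castSucc_lt_last j).ne', h]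
  | cast i =>
    induction j using Fin.lastCases with
    | last => rw [Fin.snoc_last, Fin.snoc_castSucc, if_neg (Fin.castSucc_lt_last i).ne, real_inner_comm, h]
    | cast j =>
      rw [Fin.snoc_castSucc, Fin.snoc_castSucc, he]
      by_cases hij : i = j
      · rw [if_pos hij, if_pos (by rw [hij])]
      · rw [if_neg hij, if_neg fun h1 => hij (Fin.castSucc_injective _ h1)]

theorem card_le_on [FiniteDimensional ℝ W] {k : ℕ} {e : Fin k → W} (he : Orthonormal ℝ e) : k ≤ finrank ℝ W := by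
  have h1 := he.linearIndependent.fintype_card_le_finrank
  rwa [Fintype.card_fin] at h1

/-- The first frame. -/
theorem CX.frame2 [Nontrivial V] (h : CX J z0 I) : ∃ (v : V) (z : Fin 2 → W), ‖v‖ = 1 ∧ Orthonormal ℝ z ∧ z 0 = z0 ∧ J (z 1) v = I v := by
  obtain ⟨v, hv⟩ := exists_norm_eq V zero_le_one
  obtain ⟨z1, h1, h10, hv1⟩ := h.fix v hv
  refine ⟨v, ![z0, z1], hv, ?_, rfl, hv1⟩
  have h2 : (![z0, z1] : Fin 2 → W) = Fin.snoc ![z0] z1 := by
    ext i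
    fin_cases i <;> rfl
  rw [h2]
  refine on_snoc ?_ h1 fun i => ?_
  · rw [orthonormal_iff_ite]
    intro i j
    fin_cases i
    fin_cases j
    change ⟪z0, z0⟫ = _
    rw [real_inner_self_eq_norm_sq, h.hz, one_pow]
    rfl
  · fin_cases i
    exact h10

theorem CX.frame4 [FiniteDimensional ℝ W] [Nontrivial V] (h : CX J z0 I) (hW : 3 ≤ finrank ℝ W) : ∃ (v : V) (z : Fin 4 → W), ‖v‖ = 1 ∧
    Orthonormal ℝ z ∧ z 0 = z0 ∧ J (z 1) v = I v ∧ J (z 3) v = I (J (z 2) v) := by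
  obtain ⟨v, z, hv, hz, hz0, hz1⟩ := h.frame2
  obtain ⟨z2, h2, h2'⟩ := exists_perp' z (by omega)
  have h10 : ⟪z 1, z0⟫ = 0 := by
    rw [← hz0]
    exact hz.2 (by decide)
  obtain ⟨z3, h3, h30, h31, h32, h3v⟩ := h.partner (hz.1 1) h10 hv hz1 h2 (by rw [← hz0]; exact h2' 0) (h2' 1)
  have e1 := on_snoc hz h2 h2'
  have e2 := on_snoc e1 h3 fun i => by
    fin_cases i
    · change ⟪z3, z 0⟫ = 0
      rw [hz0, h30]
    · exact h31
    · exact h32
  exact ⟨v, _, hv, e2, hz0, hz1, h3v⟩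

theorem CX.frame6 [FiniteDimensional ℝ W] [Nontrivial V] (h : CX J z0 I) (hW : 5 ≤ finrank ℝ W) : ∃ (v : V) (z : Fin 6 → W), ‖v‖ = 1 ∧
    Orthonormal ℝ z ∧ z 0 = z0 ∧ J (z 1) v = I v ∧ J (z 3) v = I (J (z 2) v) ∧ J (z 5) v = I (J (z 4) v) := by
  obtain ⟨v, z, hv, hz, hz0, hz1, hz3⟩ := h.frame4 (by omega)
  obtain ⟨z4, h4, h4'⟩ := exists_perp' z (by omega)
  have h10 : ⟪z 1, z0⟫ = 0 := by
    rw [← hz0]
    exact hz.2 (by decide)
  obtain ⟨z5, h5, h50, h51, h54, h5v⟩ := h.partner (hz.1 1) h10 hv hz1 h4 (by rw [← hz0]; exact h4' 0) (h4' 1)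
  have e1 := on_snoc hz h4 h4'
  have h52 : ⟪z5, z 2⟫ = 0 := by
    have h6 := pol_left h.nm.nrm z5 (z 2) v
    have h7 := pol_left h.nm.nrm z4 (z 3) v
    rw [h4', zero_mul, hz3] at h7
    rw [h5v, h.skew_I, h7, hv, one_pow, mul_one, neg_zero] at h6
    exact h6.symm
  have h53 : ⟪z5, z 3⟫ = 0 := by
    have h6 := pol_left h.nm.nrm z5 (z 3) v
    have h7 := pol_left h.nm.nrm z4 (z 2) v
    rw [h4', zero_mul] at h7
    rw [h5v, hz3, h.inner_I, h7, hv, one_pow, mul_one] at h6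
    exact h6.symm
  have e2 := on_snoc e1 h5 fun i => by
    fin_cases i
    · change ⟪z5, z 0⟫ = 0
      rw [hz0, h50]
    · exact h51
    · exact h52
    · exact h53
    · exact h54
  exact ⟨v, _, hv, e2, hz0, hz1, hz3, h5v⟩

/-- The dimension of `W` is at most six. -/
theorem CX.le_six [FiniteDimensional ℝ W] [Nontrivial V] (h : CX J z0 I) : finrank ℝ W ≤ 6 := by
  by_contra hW
  rw [not_le] at hW
  obtain ⟨v, z, hv, hz, hz0, hz1, hz3, hz5⟩ := h.frame6 (by omega)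
  obtain ⟨z6, h6, h6'⟩ := exists_perp' z (by omega)
  have p : ∀ i : Fin 6, i ≠ 0 → ⟪z i, z0⟫ = 0 := fun i hi => by
    rw [← hz0]
    exact hz.2 hi
  have h60 : ⟪z6, z0⟫ = 0 := by
    rw [← hz0]
    exact h6' 0
  have a1 : ∀ x, J (z 1) (J (z 2) x) = -J (z 2) (J (z 1) x) := fun x => h.nm.anti (p 1 (by decide)) (p 2 (by decide)) (hz.2 (by decide)) x
  have a2 : ∀ x, J (z 1) (J (z 4) x) = -J (z 4) (J (z 1) x) := fun x => h.nm.anti (p 1 (by decide)) (p 4 (by decide)) (hz.2 (by decide)) x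
  have a3 : ∀ x, J (z 1) (J z6 x) = -J z6 (J (z 1) x) := fun x => h.nm.anti (p 1 (by decide)) h60 (by rw [real_inner_comm]; exact h6' 1) x
  have a4 : ∀ x, J (z 3) (J (z 2) x) = -J (z 2) (J (z 3) x) := fun x => h.nm.anti (p 3 (by decide)) (p 2 (by decide)) (hz.2 (by decide)) x
  have a5 : ∀ x, J (z 3) (J (z 4) x) = -J (z 4) (J (z 3) x) := fun x => h.nm.anti (p 3 (by decide)) (p 4 (by decide)) (hz.2 (by decide)) x
  have a6 : ∀ x, J (z 3) (J z6 x) = -J z6 (J (z 3) x) := fun x => h.nm.anti (p 3 (by decide)) h60 (by rw [real_inner_comm]; exact h6' 3) x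
  have a7 : ∀ x, J (z 4) (J (z 2) x) = -J (z 2) (J (z 4) x) := fun x => h.nm.anti (p 4 (by decide)) (p 2 (by decide)) (hz.2 (by decide)) x
  have a8 : ∀ x, J z6 (J (z 2) x) = -J (z 2) (J z6 x) := fun x => h.nm.anti h60 (p 2 (by decide)) (h6' 2) x
  have s2 : ∀ x, J (z 2) (J (z 2) x) = -x := fun x => by rw [h.nm.sq (p 2 (by decide)), hz.1, one_pow, one_smul]
  obtain ⟨s, hs0, hs1, hs2⟩ := h.surj (hz.1 1) (p 1 (by decide)) hv hz1 (w := J (z 2) (J (z 4) (J z6 v))) (by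
    simp only [a1, a2, a3, hz1, h.cm, map_neg, neg_neg])
  -- `s` is orthogonal to `z 2`, `z 3`
  have k1 : ⟪J (z 4) (J z6 v), v⟫ = 0 := by
    rw [h.nm.skew (p 4 (by decide)), pol_left h.nm.nrm, h6', zero_mul, neg_zero]
  have k2 : ⟪J (z 4) (J z6 v), I v⟫ = 0 := by
    rw [h.nm.skew (p 4 (by decide)), h.cm, ← hz5, pol_left h.nm.nrm, h6', zero_mul, neg_zero]
  have r2 : ⟪s, z 2⟫ = 0 := by
    have h1 := pol_left h.nm.nrm s (z 2) v
    rw [hs2, h.nm.inner_left, k1, hv, one_pow, mul_one, mul_zero] at h1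
    exact h1.symm
  have r3 : ⟪s, z 3⟫ = 0 := by
    have h1 := pol_left h.nm.nrm s (z 3) v
    rw [hs2, hz3, ← h.cm, h.nm.inner_left, k2, hv, one_pow, mul_one, mul_zero] at h1
    exact h1.symm
  have b1 : J (z 3) (J s v) = -I (J (z 4) (J z6 v)) := by
    rw [h.nm.anti (p 3 (by decide)) hs0 (by rw [real_inner_comm]; exact r3), hz3, h.cm, h.nm.anti hs0 (p 2 (by decide)) r2, hs2, s2, map_neg,
      map_neg, neg_neg]
  have b2 : J (z 3) (J s v) = I (J (z 4) (J z6 v)) := by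
    rw [hs2, a4, a5, a6, hz3, h.cm, a8]
    simp only [map_neg, neg_neg, h.cm, a7, s2]
  have b3 : (2 : ℝ) • I (J (z 4) (J z6 v)) = 0 := by
    rw [two_smul]
    nth_rewrite 1 [← b2]
    rw [b1, neg_add_cancel]
  have b4 : ‖I (J (z 4) (J z6 v))‖ = 1 := by
    rw [h.nI, h.nm.nrm, h.nm.nrm, hz.1, h6, hv, one_mul, one_mul]
  rw [(smul_eq_zero.1 b3).resolve_left two_ne_zero, norm_zero] at b4
  exact zero_ne_one b4

/-- **The dimensions.** -/
theorem CX.dims [FiniteDimensional ℝ W] [FiniteDimensional ℝ V] [Nontrivial V] (h : CX J z0 I) :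
    finrank ℝ W = 2 ∨ (finrank ℝ V = 4 ∧ finrank ℝ W = 4) ∨ (finrank ℝ V = 8 ∧ finrank ℝ W = 6) := by
  obtain ⟨v, z, -, hz, -⟩ := h.frame2
  have h1 := card_le_on hz
  have h6 := h.le_six
  by_cases h2 : finrank ℝ W = 2
  · exact Or.inl h2
  right
  obtain ⟨v, z, -, hz, -⟩ := h.frame4 (by omega)
  have h3 := card_le_on hz
  have hZ : finrank ℝ (ℝ ∙ z0)ᗮ + 1 = finrank ℝ W := by
    have hz00 : z0 ≠ 0 := by
      rintro rfl
      have := h.hz
      rw [norm_zero] at this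
      exact zero_ne_one this
    have h2 := (ℝ ∙ z0).finrank_add_finrank_orthogonal
    rw [finrank_span_singleton hz00] at h2
    omega
  have h4 := h.sys.dim (by omega)
  by_cases h5 : finrank ℝ W = 4
  · left
    omega
  · obtain ⟨v, z, -, hz, -⟩ := h.frame6 (by omega)
    have h7 := card_le_on hz
    right
    omega

end

end Pool.Agent.Helper95.AE
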