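import Pool.Agent.Helper95.AE.Sys

/-!
# Project MP_0f6f3f_an, layer AE (algebraic end): Clifford modules

`NM J z0`: `J : W → End V` is linear, `|J z x| = |z| |x|`, `J z0 = 1`. `NM.skew`, `NM.sq`, `NM.anti`: on the orthogonal complement of `z0` the operators are skew, `(J z)² = -|z|²`, and orthogonal vectors give anticommuting
operators. `uniq2`, `uniq3`: uniqueness for `dim V = dim W = 2` and for `dim V = 4`, `dim W = 3`.
-/

set_option autoImplicit false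
set_option linter.unusedSectionVars false

namespace Pool.Agent.Helper95.AE

open Module

open scoped RealInnerProductSpace

section

variable {W V : Type*} [NormedAddCommGroup W] [InnerProductSpace ℝ W] [NormedAddCommGroup V] [InnerProductSpace ℝ V]

/-- A normed module. -/
structure NM (J : W →ₗ[ℝ] V →ₗ[ℝ] V) (z0 : W) : Prop where
  nrm : ∀ z x, ‖J z x‖ = ‖z‖ * ‖x‖
  one : ∀ x, J z0 x = x

/-- Polarisation of a normed bilinear map. -/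
theorem pol_left {V' W' U' : Type*} [NormedAddCommGroup V'] [InnerProductSpace ℝ V'] [NormedAddCommGroup W'] [InnerProductSpace ℝ W']
    [NormedAddCommGroup U'] [InnerProductSpace ℝ U'] {m : V' →ₗ[ℝ] W' →ₗ[ℝ] U'} (hm : ∀ x z, ‖m x z‖ = ‖x‖ * ‖z‖) (x y : V') (z : W') :
    ⟪m x z, m y z⟫ = ⟪x, y⟫ * ‖z‖ ^ 2 := by
  have h1 : ‖m (x + y) z‖ ^ 2 = (‖x + y‖ * ‖z‖) ^ 2 := by rw [hm]
  rw [map_add, LinearMap.add_apply, norm_add_sq_real, mul_pow, norm_add_sq_real, hm, hm] at h1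
  nlinarith

theorem pol_right {V' W' U' : Type*} [NormedAddCommGroup V'] [InnerProductSpace ℝ V'] [NormedAddCommGroup W'] [InnerProductSpace ℝ W']
    [NormedAddCommGroup U'] [InnerProductSpace ℝ U'] {m : V' →ₗ[ℝ] W' →ₗ[ℝ] U'} (hm : ∀ x z, ‖m x z‖ = ‖x‖ * ‖z‖) (x : V') (z w : W') :
    ⟪m x z, m x w⟫ = ‖x‖ ^ 2 * ⟪z, w⟫ := by
  have h1 : ‖m x (z + w)‖ ^ 2 = (‖x‖ * ‖z + w‖) ^ 2 := by rw [hm]
  rw [map_add, norm_add_sq_real, mul_pow, norm_add_sq_real, hm, hm] at h1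
  nlinarith

/-- The second polarisation. -/
theorem pol_both {V' W' U' : Type*} [NormedAddCommGroup V'] [InnerProductSpace ℝ V'] [NormedAddCommGroup W'] [InnerProductSpace ℝ W']
    [NormedAddCommGroup U'] [InnerProductSpace ℝ U'] {m : V' →ₗ[ℝ] W' →ₗ[ℝ] U'} (hm : ∀ x z, ‖m x z‖ = ‖x‖ * ‖z‖) (x y : V') (z w : W') :
    ⟪m x z, m y w⟫ + ⟪m x w, m y z⟫ = 2 * ⟪x, y⟫ * ⟪z, w⟫ := by
  have h1 := pol_left hm x y (z + w)
  have h2 := pol_left hm x y z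
  have h3 := pol_left hm x y w
  rw [map_add, map_add, inner_add_left, inner_add_right, inner_add_right, norm_add_sq_real] at h1
  linear_combination h1 - h2 - h3

variable {J : W →ₗ[ℝ] V →ₗ[ℝ] V} {z0 : W}

theorem NM.inner_left (hJ : NM J z0) (z : W) (x y : V) : ⟪J z x, J z y⟫ = ‖z‖ ^ 2 * ⟪x, y⟫ := pol_right hJ.nrm z x y

theorem NM.inner_both (hJ : NM J z0) (z w : W) (x y : V) : ⟪J z x, J w y⟫ + ⟪J z y, J w x⟫ = 2 * ⟪z, w⟫ * ⟪x, y⟫ :=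
  pol_both hJ.nrm z w x y

theorem NM.skew (hJ : NM J z0) {z : W} (hz : ⟪z, z0⟫ = 0) (x y : V) : ⟪J z x, y⟫ = -⟪x, J z y⟫ := by
  have h1 := hJ.inner_both z z0 x y
  rw [hJ.one, hJ.one, hz, mul_zero, zero_mul, real_inner_comm x (J z y)] at h1
  linarith

theorem ext_inner' {x y : V} (h : ∀ z, ⟪x, z⟫ = ⟪y, z⟫) : x = y := ext_inner_right ℝ h

theorem NM.sq (hJ : NM J z0) {z : W} (hz : ⟪z, z0⟫ = 0) (x : V) : J z (J z x) = -(‖z‖ ^ 2 • x) := by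
  refine ext_inner' fun y => ?_
  rw [hJ.skew hz, hJ.inner_left, inner_neg_left, inner_smul_left]
  simp

theorem NM.anti (hJ : NM J z0) {z w : W} (hz : ⟪z, z0⟫ = 0) (hw : ⟪w, z0⟫ = 0) (hzw : ⟪z, w⟫ = 0) (x : V) :
    J z (J w x) = -J w (J z x) := by
  have h1 := hJ.sq (z := z + w) (by rw [inner_add_left, hz, hw, add_zero]) x
  have h2 : ‖z + w‖ ^ 2 = ‖z‖ ^ 2 + ‖w‖ ^ 2 := by
    rw [norm_add_sq_real, hzw]
    ring
  rw [h2, map_add, LinearMap.add_apply, LinearMap.add_apply, map_add, map_add, hJ.sq hz, hJ.sq hw, add_smul] at h1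
  have h3 : J z (J w x) + J w (J z x) = (-(‖z‖ ^ 2 • x) + J z (J w x) + (J w (J z x) + -(‖w‖ ^ 2 • x))) + (‖z‖ ^ 2 • x + ‖w‖ ^ 2 • x) := by
    abel
  rw [h1, neg_add_cancel] at h3
  exact eq_neg_of_add_eq_zero_left h3

theorem NM.inner_self (hJ : NM J z0) {z : W} (hz : ⟪z, z0⟫ = 0) (x : V) : ⟪J z x, x⟫ = 0 := by
  have h1 := hJ.skew hz x x
  rw [real_inner_comm x (J z x)] at h1
  rw [real_inner_comm]
  linarith

/-- **The module of a normed bilinear map.** -/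
theorem exists_nm {U : Type*} [NormedAddCommGroup U] [InnerProductSpace ℝ U] [FiniteDimensional ℝ V] [FiniteDimensional ℝ U]
    {m : V →ₗ[ℝ] W →ₗ[ℝ] U} (hm : ∀ x z, ‖m x z‖ = ‖x‖ * ‖z‖) (hd : finrank ℝ U = finrank ℝ V) {z0 : W} (hz0 : ‖z0‖ = 1) :
    ∃ (C : V ≃ₗᵢ[ℝ] U) (J : W →ₗ[ℝ] V →ₗ[ℝ] V), (∀ x, C x = m x z0) ∧ NM J z0 ∧ ∀ z x, C (J z x) = m x z := by
  let C0 : V →ₗᵢ[ℝ] U := ⟨m.flip z0, fun x => by rw [LinearMap.flip_apply, hm, hz0, mul_one]⟩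
  let C : V ≃ₗᵢ[ℝ] U := C0.toLinearIsometryEquiv hd.symm
  have hC : ∀ x, C x = m x z0 := fun x => rfl
  let J : W →ₗ[ℝ] V →ₗ[ℝ] V := m.flip.compr₂ (C.symm.toLinearEquiv : U →ₗ[ℝ] V)
  have hJ : ∀ z x, J z x = C.symm (m x z) := fun z x => rfl
  refine ⟨C, J, hC, ⟨fun z x => ?_, fun x => ?_⟩, fun z x => ?_⟩
  · rw [hJ, LinearIsometryEquiv.norm_map, hm, mul_comm]
  · rw [hJ, ← hC, LinearIsometryEquiv.symm_apply_apply]
  · rw [hJ, LinearIsometryEquiv.apply_symm_apply]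

end

section uniq

variable {W V W' V' : Type*} [NormedAddCommGroup W] [InnerProductSpace ℝ W] [NormedAddCommGroup V] [InnerProductSpace ℝ V]
  [NormedAddCommGroup W'] [InnerProductSpace ℝ W'] [NormedAddCommGroup V'] [InnerProductSpace ℝ V']
  {J : W →ₗ[ℝ] V →ₗ[ℝ] V} {z0 : W} {J' : W' →ₗ[ℝ] V' →ₗ[ℝ] V'} {z0' : W'}

theorem exists_basis_first [FiniteDimensional ℝ W] {k : ℕ} (hk : finrank ℝ W = k + 1) (hz0 : ‖z0‖ = 1) :
    ∃ b : OrthonormalBasis (Fin (k + 1)) ℝ W, b 0 = z0 := by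
  have hv : Orthonormal ℝ (({0} : Set (Fin (k + 1))).domRestrict fun _ => z0) := by
    rw [orthonormal_iff_ite]
    intro i j
    have hij : i = j := Subsingleton.elim _ _
    rw [if_pos hij]
    change ⟪z0, z0⟫ = 1
    rw [real_inner_self_eq_norm_sq, hz0, one_pow]
  obtain ⟨b, hb⟩ := hv.exists_orthonormalBasis_extension_of_card_eq (by rw [Fintype.card_fin, hk])
  exact ⟨b, hb 0 rfl⟩

/-- An orthonormal family of the right cardinality is a basis. -/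
theorem exists_basis_of {ι : Type} [Fintype ι] [FiniteDimensional ℝ V] {e : ι → V} (he : Orthonormal ℝ e)
    (hd : finrank ℝ V = Fintype.card ι) : ∃ b : OrthonormalBasis ι ℝ V, ∀ i, b i = e i := by
  have hv : Orthonormal ℝ ((Set.univ : Set ι).domRestrict e) := he.comp _ Subtype.val_injective
  obtain ⟨b, hb⟩ := hv.exists_orthonormalBasis_extension_of_card_eq hd
  exact ⟨b, fun i => hb i trivial⟩

/-- The action of the generators on a basis determines the module. -/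
theorem inter_of_basis {ι κ : Type} [Fintype ι] [Fintype κ] (e : OrthonormalBasis ι ℝ V) (e' : OrthonormalBasis ι ℝ V')
    (b : OrthonormalBasis κ ℝ W) (b' : OrthonormalBasis κ ℝ W') (s : κ → ι → ℝ) (p : κ → ι → ι)
    (h : ∀ i j, J (b i) (e j) = s i j • e (p i j)) (h' : ∀ i j, J' (b' i) (e' j) = s i j • e' (p i j)) :
    ∃ (f : V ≃ₗᵢ[ℝ] V') (g : W ≃ₗᵢ[ℝ] W'), (∀ j, f (e j) = e' j) ∧ (∀ i, g (b i) = b' i) ∧ ∀ z x, f (J z x) = J' (g z) (f x) := by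
  obtain ⟨f, hf⟩ : ∃ f : V ≃ₗᵢ[ℝ] V', ∀ j, f (e j) = e' j := ⟨e.equiv e' (Equiv.refl ι), fun j => by simp⟩
  obtain ⟨g, hg⟩ : ∃ g : W ≃ₗᵢ[ℝ] W', ∀ i, g (b i) = b' i := ⟨b.equiv b' (Equiv.refl κ), fun i => by simp⟩
  refine ⟨f, g, hf, hg, ?_⟩
  have h1 : J.compr₂ (f.toLinearEquiv : V →ₗ[ℝ] V') =
      J'.compl₁₂ (g.toLinearEquiv : W →ₗ[ℝ] W') (f.toLinearEquiv : V →ₗ[ℝ] V') := by
    refine b.toBasis.ext fun i => e.toBasis.ext fun j => ?_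
    rw [OrthonormalBasis.coe_toBasis, OrthonormalBasis.coe_toBasis, LinearMap.compr₂_apply, LinearMap.compl₁₂_apply]
    change f (J (b i) (e j)) = J' (g (b i)) (f (e j))
    rw [h, map_smul, hf, hg, hf, h']
  intro z x
  exact LinearMap.congr_fun₂ h1 z x

theorem std2 [FiniteDimensional ℝ W] [FiniteDimensional ℝ V] (hJ : NM J z0) (hz : ‖z0‖ = 1) (hV : finrank ℝ V = 2)
    (hW : finrank ℝ W = 2) : ∃ (e : OrthonormalBasis (Fin 2) ℝ V) (b : OrthonormalBasis (Fin 2) ℝ W), b 0 = z0 ∧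
        ∀ i j, J (b i) (e j) = (![![1, 1], ![1, -1]] : Fin 2 → Fin 2 → ℝ) i j • e ((![![0, 1], ![1, 0]] : Fin 2 → Fin 2 → Fin 2) i j) := by
  obtain ⟨b, hb⟩ := exists_basis_first (k := 1) hW hz
  have hV0 : Nontrivial V := Module.nontrivial_of_finrank_pos (R := ℝ) (by omega)
  obtain ⟨v, hv⟩ := exists_norm_eq V zero_le_one
  have h10 : ⟪b 1, z0⟫ = 0 := by
    rw [← hb]
    exact b.orthonormal.2 (by decide)
  have hn : ‖b 1‖ = 1 := b.orthonormal.1 1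
  have he : Orthonormal ℝ ![v, J (b 1) v] := by
    rw [orthonormal_iff_ite]
    intro i j
    fin_cases i <;> fin_cases j
    · simp [hv]
    · simp only [Fin.zero_eta, Fin.mk_one, Matrix.cons_val_zero, Matrix.cons_val_one]
      rw [real_inner_comm, hJ.inner_self h10, if_neg (by decide)]
    · simp only [Fin.zero_eta, Fin.mk_one, Matrix.cons_val_zero, Matrix.cons_val_one]
      rw [hJ.inner_self h10, if_neg (by decide)]
    · simp [hJ.nrm, hv, hn]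
  obtain ⟨e, he2⟩ := exists_basis_of he (by rw [hV, Fintype.card_fin])
  have e0 : e 0 = v := he2 0
  have e1 : e 1 = J (b 1) v := he2 1
  refine ⟨e, b, hb, fun i j => ?_⟩
  fin_cases i <;> fin_cases j <;> simp [hb, hJ.one, e0, e1, hJ.sq h10, hn]

theorem std3 [FiniteDimensional ℝ W] [FiniteDimensional ℝ V] (hJ : NM J z0) (hz : ‖z0‖ = 1) (hV : finrank ℝ V = 4)
    (hW : finrank ℝ W = 3) : ∃ (e : OrthonormalBasis (Fin 4) ℝ V) (b : OrthonormalBasis (Fin 3) ℝ W), b 0 = z0 ∧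
        ∀ i j, J (b i) (e j) = (![![1, 1, 1, 1], ![1, -1, 1, -1], ![1, -1, -1, 1]] : Fin 3 → Fin 4 → ℝ) i j •
          e ((![![0, 1, 2, 3], ![1, 0, 3, 2], ![2, 3, 0, 1]] : Fin 3 → Fin 4 → Fin 4) i j) := by
  obtain ⟨b, hb⟩ := exists_basis_first (k := 2) hW hz
  have hV0 : Nontrivial V := Module.nontrivial_of_finrank_pos (R := ℝ) (by omega)
  obtain ⟨v, hv⟩ := exists_norm_eq V zero_le_one
  have h10 : ⟪b 1, z0⟫ = 0 := by
    rw [← hb]
    exact b.orthonormal.2 (by decide)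
  have h20 : ⟪b 2, z0⟫ = 0 := by
    rw [← hb]
    exact b.orthonormal.2 (by decide)
  have h12 : ⟪b 1, b 2⟫ = 0 := b.orthonormal.2 (by decide)
  have hn1 : ‖b 1‖ = 1 := b.orthonormal.1 1
  have hn2 : ‖b 2‖ = 1 := b.orthonormal.1 2
  have vv : ⟪v, v⟫ = 1 := by rw [real_inner_self_eq_norm_sq, hv, one_pow]
  have i1 : ⟪J (b 1) v, v⟫ = 0 := hJ.inner_self h10 v
  have i2 : ⟪J (b 2) v, v⟫ = 0 := hJ.inner_self h20 v
  have i12 : ⟪J (b 1) v, J (b 2) v⟫ = 0 := by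
    have h1 := hJ.inner_both (b 1) (b 2) v v
    rw [h12, mul_zero, zero_mul] at h1
    linarith
  have sq1 : ∀ x, J (b 1) (J (b 1) x) = -x := fun x => by rw [hJ.sq h10, hn1, one_pow, one_smul]
  have sq2 : ∀ x, J (b 2) (J (b 2) x) = -x := fun x => by rw [hJ.sq h20, hn2, one_pow, one_smul]
  have an : ∀ x, J (b 2) (J (b 1) x) = -J (b 1) (J (b 2) x) := fun x => hJ.anti h20 h10 (by rw [real_inner_comm]; exact h12) x
  obtain ⟨a, ha⟩ : ∃ a, a = J (b 1) v := ⟨_, rfl⟩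
  obtain ⟨c, hc⟩ : ∃ c, c = J (b 2) v := ⟨_, rfl⟩
  obtain ⟨d, hd⟩ : ∃ d, d = J (b 1) (J (b 2) v) := ⟨_, rfl⟩
  have n1 : ‖a‖ = 1 := by rw [ha, hJ.nrm, hn1, hv, one_mul]
  have n2 : ‖c‖ = 1 := by rw [hc, hJ.nrm, hn2, hv, one_mul]
  have n3 : ‖d‖ = 1 := by rw [hd, hJ.nrm, hJ.nrm, hn1, hn2, hv, one_mul, one_mul]
  have va : ⟪v, a⟫ = 0 := by rw [ha, real_inner_comm, i1]
  have vc : ⟪v, c⟫ = 0 := by rw [hc, real_inner_comm, i2]
  have vd : ⟪v, d⟫ = 0 := by rw [hd, real_inner_comm, hJ.skew h10, real_inner_comm, i12, neg_zero]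
  have ac : ⟪a, c⟫ = 0 := by rw [ha, hc, i12]
  have ad : ⟪a, d⟫ = 0 := by rw [ha, hd, hJ.inner_left, real_inner_comm, i2, mul_zero]
  have cd : ⟪c, d⟫ = 0 := by rw [hc, hd, real_inner_comm, hJ.inner_self h10]
  have he : Orthonormal ℝ ![v, a, c, d] := by
    rw [orthonormal_iff_ite]
    intro i j
    have av : ⟪a, v⟫ = 0 := by rw [real_inner_comm, va]
    have cv : ⟪c, v⟫ = 0 := by rw [real_inner_comm, vc]
    have dv : ⟪d, v⟫ = 0 := by rw [real_inner_comm, vd]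
    have ca : ⟪c, a⟫ = 0 := by rw [real_inner_comm, ac]
    have da : ⟪d, a⟫ = 0 := by rw [real_inner_comm, ad]
    have dc : ⟪d, c⟫ = 0 := by rw [real_inner_comm, cd]
    fin_cases i <;> fin_cases j <;> simp [hv, n1, n2, n3, va, vc, vd, ac, ad, cd, av, cv, dv, ca, da, dc]
  obtain ⟨e, he2⟩ := exists_basis_of he (by rw [hV, Fintype.card_fin])
  have e0 : e 0 = v := he2 0
  have e1 : e 1 = a := he2 1
  have e2 : e 2 = c := he2 2
  have e3 : e 3 = d := he2 3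
  refine ⟨e, b, hb, fun i j => ?_⟩
  fin_cases i <;> fin_cases j <;> simp [hb, hJ.one, e0, e1, e2, e3, ha, hc, hd, sq1, sq2, an]

/-- **Uniqueness, `dim V = dim W = 2`.** -/
theorem uniq2 [FiniteDimensional ℝ W] [FiniteDimensional ℝ V] [FiniteDimensional ℝ W'] [FiniteDimensional ℝ V'] (hJ : NM J z0)
    (hJ' : NM J' z0') (hz : ‖z0‖ = 1) (hz' : ‖z0'‖ = 1) (hV : finrank ℝ V = 2) (hV' : finrank ℝ V' = 2) (hW : finrank ℝ W = 2)
    (hW' : finrank ℝ W' = 2) : ∃ (f : V ≃ₗᵢ[ℝ] V') (g : W ≃ₗᵢ[ℝ] W'), g z0 = z0' ∧ ∀ z x, f (J z x) = J' (g z) (f x) := by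
  obtain ⟨e, b, hb, h1⟩ := std2 hJ hz hV hW
  obtain ⟨e', b', hb', h1'⟩ := std2 hJ' hz' hV' hW'
  obtain ⟨f, g, -, hg, h2⟩ := inter_of_basis e e' b b' _ _ h1 h1'
  exact ⟨f, g, by rw [← hb, hg, hb'], h2⟩

/-- **Uniqueness, `dim V = 4`, `dim W = 3`.** -/
theorem uniq3 [FiniteDimensional ℝ W] [FiniteDimensional ℝ V] [FiniteDimensional ℝ W'] [FiniteDimensional ℝ V'] (hJ : NM J z0)
    (hJ' : NM J' z0') (hz : ‖z0‖ = 1) (hz' : ‖z0'‖ = 1) (hV : finrank ℝ V = 4) (hV' : finrank ℝ V' = 4) (hW : finrank ℝ W = 3)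
    (hW' : finrank ℝ W' = 3) : ∃ (f : V ≃ₗᵢ[ℝ] V') (g : W ≃ₗᵢ[ℝ] W'), g z0 = z0' ∧ ∀ z x, f (J z x) = J' (g z) (f x) := by
  obtain ⟨e, b, hb, h1⟩ := std3 hJ hz hV hW
  obtain ⟨e', b', hb', h1'⟩ := std3 hJ' hz' hV' hW'
  obtain ⟨f, g, -, hg, h2⟩ := inter_of_basis e e' b b' _ _ h1 h1'
  exact ⟨f, g, by rw [← hb, hg, hb'], h2⟩

end uniq

end Pool.Agent.Helper95.AE
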