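import Mathlib

/-!
# Project MP_0f6f3f_an, layer AE (algebraic end): systems of symmetric involutions

`Sys S`: `S t`, `t` in a Euclidean space `T`, are symmetric operators of a Euclidean space `V`, linear in `t`, `(S t)² = |t|²`, and every unit vector `x` of `V` is fixed by `S t` for some unit vector `t`.
`Sys.key`: if `S t x = x`, `S t y = -y`, then `S s x = y` for some unit `s` orthogonal to `t`. `Sys.dim`: if `dim T ≥ 2` then `dim V = 2 (dim T - 1)`; `Sys.one`: if `dim T ≤ 1` then `S t` is a scalar.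
-/

set_option autoImplicit false
set_option linter.unusedSectionVars false

namespace Pool.Agent.Helper95.AE

open Module

open scoped RealInnerProductSpace

variable {T V : Type*} [NormedAddCommGroup T] [InnerProductSpace ℝ T] [NormedAddCommGroup V] [InnerProductSpace ℝ V]

/-- A system of symmetric involutions. -/
structure Sys (S : T →ₗ[ℝ] V →ₗ[ℝ] V) : Prop where
  symm : ∀ t x y, ⟪S t x, y⟫ = ⟪x, S t y⟫
  sq : ∀ t x, S t (S t x) = ‖t‖ ^ 2 • x
  fix : ∀ x, ‖x‖ = 1 → ∃ t, ‖t‖ = 1 ∧ S t x = x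

variable {S : T →ₗ[ℝ] V →ₗ[ℝ] V}

theorem Sys.norm (hS : Sys S) (t : T) (x : V) : ‖S t x‖ = ‖t‖ * ‖x‖ := by
  have h1 : ‖S t x‖ ^ 2 = (‖t‖ * ‖x‖) ^ 2 := by
    rw [← real_inner_self_eq_norm_sq, hS.symm, hS.sq, inner_smul_right, real_inner_self_eq_norm_sq]
    ring
  exact (pow_left_inj₀ (norm_nonneg _) (by positivity) two_ne_zero).1 h1

/-- Anticommutation. -/
theorem Sys.anti (hS : Sys S) {s t : T} (h : ⟪s, t⟫ = 0) (x : V) : S s (S t x) = -S t (S s x) := by
  have h1 := hS.sq (s + t) x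
  have h2 : ‖s + t‖ ^ 2 = ‖s‖ ^ 2 + ‖t‖ ^ 2 := by
    rw [norm_add_sq_real, h]
    ring
  rw [h2, map_add, LinearMap.add_apply, LinearMap.add_apply, map_add, map_add, hS.sq, hS.sq, add_smul] at h1
  have h3 : S s (S t x) + S t (S s x) = 0 := by
    have h4 : ‖s‖ ^ 2 • x + S s (S t x) + (S t (S s x) + ‖t‖ ^ 2 • x) = ‖s‖ ^ 2 • x + ‖t‖ ^ 2 • x := h1
    have h5 : S s (S t x) + S t (S s x) = (‖s‖ ^ 2 • x + S s (S t x) + (S t (S s x) + ‖t‖ ^ 2 • x)) - (‖s‖ ^ 2 • x + ‖t‖ ^ 2 • x) := by abel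
    rw [h5, h4, sub_self]
  exact eq_neg_of_add_eq_zero_left h3

/-- Equality in Cauchy–Schwarz. -/
theorem eq_of_inner {x y : V} (hx : ‖x‖ ≤ 1) (hy : ‖y‖ ≤ 1) (h : ⟪x, y⟫ = 1) : x = y := by
  have h1 : ‖x - y‖ ^ 2 ≤ 0 := by
    rw [norm_sub_sq_real, h]
    nlinarith [norm_nonneg x, norm_nonneg y]
  have h2 : ‖x - y‖ = 0 := by
    have := sq_nonneg ‖x - y‖
    exact pow_eq_zero_iff two_ne_zero |>.1 (le_antisymm h1 this)
  exact sub_eq_zero.1 (norm_eq_zero.1 h2)

/-- Two unit vectors in opposite eigenspaces. -/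
theorem Sys.key (hS : Sys S) {t : T} (ht : ‖t‖ = 1) {x y : V} (hx : ‖x‖ = 1) (hy : ‖y‖ = 1) (hx1 : S t x = x) (hy1 : S t y = -y) :
    ∃ s, ‖s‖ = 1 ∧ ⟪s, t⟫ = 0 ∧ S s x = y := by
  have hxy : ⟪x, y⟫ = 0 := by
    have h1 := hS.symm t x y
    rw [hx1, hy1, inner_neg_right] at h1
    linarith
  obtain ⟨r, hr⟩ : ∃ r : ℝ, r = (Real.sqrt 2)⁻¹ := ⟨_, rfl⟩
  have hr2 : r ^ 2 = 1 / 2 := by
    rw [hr, inv_pow, Real.sq_sqrt (by norm_num)]
    norm_num
  have hu : ‖r • (x + y)‖ = 1 := by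
    have h1 : ‖r • (x + y)‖ ^ 2 = 1 := by
      rw [norm_smul, mul_pow, norm_add_sq_real, hxy, hx, hy, Real.norm_eq_abs, sq_abs, hr2]
      norm_num
    nlinarith [norm_nonneg (r • (x + y))]
  obtain ⟨u, hu1, hu2⟩ := hS.fix _ hu
  have hxx : ⟪x, x⟫ = 1 := by rw [real_inner_self_eq_norm_sq, hx, one_pow]
  have hyy : ⟪y, y⟫ = 1 := by rw [real_inner_self_eq_norm_sq, hy, one_pow]
  have hyx : ⟪y, x⟫ = 0 := by rw [real_inner_comm]; exact hxy
  -- decompose `u`
  obtain ⟨a, ha⟩ : ∃ a : ℝ, a = ⟪u, t⟫ := ⟨_, rfl⟩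
  obtain ⟨s, hs⟩ : ∃ s : T, s = u - a • t := ⟨_, rfl⟩
  have htt : ⟪t, t⟫ = 1 := by rw [real_inner_self_eq_norm_sq, ht, one_pow]
  have hst : ⟪s, t⟫ = 0 := by rw [hs, inner_sub_left, inner_smul_left, htt, ← ha]; simp
  have hus : u = a • t + s := by rw [hs]; abel
  have hn : a ^ 2 + ‖s‖ ^ 2 = 1 := by
    have h1 : ‖u‖ ^ 2 = 1 := by rw [hu1, one_pow]
    rw [hus, norm_add_sq_real, inner_smul_left, real_inner_comm, hst, norm_smul, ht, Real.norm_eq_abs, mul_one, sq_abs] at h1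
    simpa using h1
  have e1 : ⟪S u (x + y), x + y⟫ = 2 := by
    have h1 : S u (x + y) = x + y := by
      have h2 := hu2
      rw [map_smul] at h2
      have hr0 : r ≠ 0 := by
        intro h
        rw [h] at hr2
        norm_num at hr2
      exact smul_right_injective V hr0 h2
    rw [h1, inner_add_left, inner_add_right, inner_add_right, hxx, hyy, hxy, hyx]
    norm_num
  have e2 : ⟪S t (x + y), x + y⟫ = 0 := by
    rw [map_add, hx1, hy1, inner_add_left, inner_add_right, inner_add_right, inner_neg_left, inner_neg_left, hxx, hyy, hxy, hyx]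
    norm_num
  have e3 : ⟪S s (x + y), x + y⟫ = 2 := by
    obtain ⟨w, hw⟩ : ∃ w, w = x + y := ⟨_, rfl⟩
    rw [← hw] at e1 e2 ⊢
    rw [hus, map_add, map_smul, LinearMap.add_apply, LinearMap.smul_apply, inner_add_left, inner_smul_left, e2] at e1
    simpa using e1
  have e4 : ‖x + y‖ ^ 2 = 2 := by
    rw [norm_add_sq_real, hxy, hx, hy]
    norm_num
  have e5 : 1 ≤ ‖s‖ := by
    have h1 := real_inner_le_norm (S s (x + y)) (x + y)
    rw [hS.norm, e3, mul_assoc, ← pow_two, e4] at h1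
    linarith
  have e6 : a ^ 2 ≤ 0 := by nlinarith [norm_nonneg s]
  have ha0 : a = 0 := pow_eq_zero_iff two_ne_zero |>.1 (le_antisymm e6 (sq_nonneg a))
  have hsu : s = u := by rw [hus, ha0, zero_smul, zero_add]
  refine ⟨s, by rw [hsu, hu1], hst, ?_⟩
  -- `S s x` is in the other eigenspace
  have f1 : S s (x + y) = x + y := by
    rw [hsu]
    have h2 := hu2
    rw [map_smul] at h2
    have hr0 : r ≠ 0 := by
      intro h
      rw [h] at hr2
      norm_num at hr2
    exact smul_right_injective V hr0 h2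
  have f2 : S t (S s x) = -S s x := by
    rw [hS.anti (by rw [real_inner_comm]; exact hst), hx1]
  have f3 : S t (S s y) = S s y := by
    rw [hS.anti (by rw [real_inner_comm]; exact hst), hy1, map_neg, neg_neg]
  have f4 : S t (S s (x + y)) = x - y := by
    rw [f1, map_add, hx1, hy1]
    abel
  have f5 : S s y - S s x = x - y := by
    rw [← f4, map_add, map_add, f2, f3]
    abel
  have f6 : S s x + S s y = x + y := by rw [← f1, map_add]
  have f7 : (2 : ℝ) • S s x = (2 : ℝ) • y := by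
    have h1 : (2 : ℝ) • S s x = (S s x + S s y) - (S s y - S s x) := by rw [two_smul]; abel
    rw [h1, f5, f6, two_smul]
    abel
  exact smul_right_injective V (two_ne_zero' ℝ) f7

theorem Sys.exists_pos [Nontrivial V] (hS : Sys S) {t t2 : T} (ht : ‖t‖ = 1) (ht2 : ‖t2‖ = 1) (h12 : ⟪t2, t⟫ = 0) :
    ∃ x, ‖x‖ = 1 ∧ S t x = x := by
  obtain ⟨v, hv⟩ := exists_ne (0 : V)
  have key : ∃ x, x ≠ 0 ∧ S t x = x := by
    by_cases h : v + S t v = 0
    · refine ⟨S t2 v, fun h1 => hv ?_, ?_⟩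
      · have h2 := hS.norm t2 v
        rw [h1, norm_zero, ht2, one_mul] at h2
        exact norm_eq_zero.1 h2.symm
      · rw [hS.anti (by rw [real_inner_comm]; exact h12), ← map_neg, ← eq_neg_of_add_eq_zero_left h]
    · refine ⟨v + S t v, h, ?_⟩
      rw [map_add, hS.sq, ht, one_pow, one_smul, add_comm]
  obtain ⟨x, hx, hx1⟩ := key
  refine ⟨‖x‖⁻¹ • x, ?_, by rw [map_smul, hx1]⟩
  rw [norm_smul, norm_inv, norm_norm, inv_mul_cancel₀ (norm_ne_zero_iff.2 hx)]

/-- The map `s ↦ S s x` from the orthogonal complement of `t` onto the eigenspace. -/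
theorem Sys.surj (hS : Sys S) {t : T} (ht : ‖t‖ = 1) {x y : V} (hx : ‖x‖ = 1) (hx1 : S t x = x) (hy1 : S t y = -y) :
    ∃ s, ⟪s, t⟫ = 0 ∧ S s x = y := by
  by_cases hy : y = 0
  · exact ⟨0, inner_zero_left _, by rw [hy, map_zero, LinearMap.zero_apply]⟩
  · obtain ⟨s, -, h1, h2⟩ := hS.key (y := ‖y‖⁻¹ • y) ht hx
      (by rw [norm_smul, norm_inv, norm_norm, inv_mul_cancel₀ (norm_ne_zero_iff.2 hy)]) hx1 (by rw [map_smul, hy1, smul_neg])
    refine ⟨‖y‖ • s, by rw [inner_smul_left, h1, mul_zero], ?_⟩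
    rw [map_smul, LinearMap.smul_apply, h2, smul_smul, mul_inv_cancel₀ (norm_ne_zero_iff.2 hy), one_smul]

/-- The operator on an eigenspace. -/
noncomputable def em (S : T →ₗ[ℝ] V →ₗ[ℝ] V) (t : T) (e : ℝ) : Submodule ℝ V := LinearMap.ker (S t - e • LinearMap.id)

theorem mem_em {t : T} {e : ℝ} {x : V} : x ∈ em S t e ↔ S t x = e • x := by
  rw [em, LinearMap.mem_ker, LinearMap.sub_apply, LinearMap.smul_apply, LinearMap.id_apply, sub_eq_zero]

variable [FiniteDimensional ℝ T] [FiniteDimensional ℝ V]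

theorem Sys.finrank_neg (hS : Sys S) {t : T} (ht : ‖t‖ = 1) {x : V} (hx : ‖x‖ = 1) (hx1 : S t x = x) :
    finrank ℝ (em S t (-1)) + 1 = finrank ℝ T := by
  have hmem : ∀ s : (ℝ ∙ t)ᗮ, S (s : T) x ∈ em S t (-1) := by
    intro s
    have h1 : ⟪t, (s : T)⟫ = 0 := Submodule.mem_orthogonal_singleton_iff_inner_right.1 s.2
    rw [mem_em, hS.anti h1, hx1, neg_one_smul]
  let f : (ℝ ∙ t)ᗮ →ₗ[ℝ] em S t (-1) :=
    { toFun := fun s => ⟨S (s : T) x, hmem s⟩
      map_add' := fun s s' => Subtype.ext (by simp)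
      map_smul' := fun c s => Subtype.ext (by simp) }
  have hf : Function.Bijective f := by
    constructor
    · rw [injective_iff_map_eq_zero]
      intro s hs
      have h1 : S (s : T) x = 0 := congrArg Subtype.val hs
      have h2 := hS.norm (s : T) x
      rw [h1, norm_zero, hx, mul_one] at h2
      exact Subtype.ext (norm_eq_zero.1 h2.symm)
    · intro y
      have h1 : S t (y : V) = -(y : V) := by
        rw [mem_em.1 y.2, neg_one_smul]
      obtain ⟨s, hs1, hs2⟩ := hS.surj ht hx hx1 h1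
      refine ⟨⟨s, Submodule.mem_orthogonal_singleton_iff_inner_right.2 (by rw [real_inner_comm]; exact hs1)⟩, Subtype.ext hs2⟩
  have h1 := (LinearEquiv.ofBijective f hf).finrank_eq
  have ht0 : t ≠ 0 := by
    rintro rfl
    rw [norm_zero] at ht
    exact zero_ne_one ht
  have h2 := (ℝ ∙ t).finrank_add_finrank_orthogonal
  rw [finrank_span_singleton ht0] at h2
  omega

theorem Sys.swap (hS : Sys S) {t t2 : T} (ht2 : ‖t2‖ = 1) (h12 : ⟪t2, t⟫ = 0) :
    finrank ℝ (em S t 1) = finrank ℝ (em S t (-1)) := by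
  have key : ∀ e : ℝ, ∀ x ∈ em S t e, S t2 x ∈ em S t (-e) := by
    intro e x hx
    rw [mem_em] at hx ⊢
    rw [hS.anti (by rw [real_inner_comm]; exact h12), hx, map_smul, neg_smul]
  have hinj : ∀ e : ℝ, finrank ℝ (em S t e) ≤ finrank ℝ (em S t (-e)) := by
    intro e
    refine LinearMap.finrank_le_finrank_of_injective (f := (S t2).restrict (key e)) ?_
    rw [injective_iff_map_eq_zero]
    intro x hx
    have h1 : S t2 (x : V) = 0 := congrArg Subtype.val hx
    have h2 := hS.norm t2 (x : V)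
    rw [h1, norm_zero, ht2, one_mul] at h2
    exact Subtype.ext (norm_eq_zero.1 h2.symm)
  refine le_antisymm (hinj 1) ?_
  have h1 := hinj (-1)
  rwa [neg_neg] at h1

theorem Sys.finrank_add (hS : Sys S) {t : T} (ht : ‖t‖ = 1) : finrank ℝ (em S t 1) + finrank ℝ (em S t (-1)) = finrank ℝ V := by
  have hc : IsCompl (em S t 1) (em S t (-1)) := by
    constructor
    · rw [Submodule.disjoint_def]
      intro x h1 h2
      rw [mem_em] at h1 h2
      rw [h1, one_smul, neg_one_smul] at h2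
      have h3 : (2 : ℝ) • x = 0 := by
        rw [two_smul]
        nth_rewrite 1 [h2]
        exact neg_add_cancel x
      exact (smul_eq_zero.1 h3).resolve_left two_ne_zero
    · rw [codisjoint_iff, eq_top_iff]
      intro x _
      have h1 : x = (1 / 2 : ℝ) • (x + S t x) + (1 / 2 : ℝ) • (x - S t x) := by
        rw [← smul_add, add_add_sub_cancel, ← two_smul ℝ x, smul_smul]
        norm_num
      rw [h1]
      refine Submodule.add_mem_sup (Submodule.smul_mem _ _ ?_) (Submodule.smul_mem _ _ ?_)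
      · rw [mem_em, map_add, hS.sq, ht, one_pow, one_smul, one_smul, add_comm]
      · rw [mem_em, map_sub, hS.sq, ht, one_pow, one_smul, neg_one_smul, neg_sub]
  exact Submodule.finrank_add_eq_of_isCompl hc

/-- **The dimension of a system.** -/
theorem Sys.dim [Nontrivial V] (hS : Sys S) (h2 : 2 ≤ finrank ℝ T) : finrank ℝ V + 2 = 2 * finrank ℝ T := by
  obtain ⟨t, t2, ht, ht2, h12⟩ : ∃ t t2 : T, ‖t‖ = 1 ∧ ‖t2‖ = 1 ∧ ⟪t2, t⟫ = 0 := by
    let B := stdOrthonormalBasis ℝ T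
    refine ⟨B ⟨0, by omega⟩, B ⟨1, by omega⟩, B.orthonormal.1 _, B.orthonormal.1 _, B.orthonormal.2 ?_⟩
    intro h
    exact absurd (congrArg Fin.val h) one_ne_zero
  obtain ⟨x, hx, hx1⟩ := hS.exists_pos ht ht2 h12
  have h3 := hS.finrank_neg ht hx hx1
  have h4 := hS.swap ht2 h12
  have h5 := hS.finrank_add ht
  omega

/-- A system of one involution is a scalar. -/
theorem Sys.one (hS : Sys S) (h1 : finrank ℝ T ≤ 1) {t : T} (ht : ‖t‖ = 1) : (∀ x, S t x = x) ∨ ∀ x, S t x = -x := by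
  by_cases h : ∀ x, S t x = -x
  · exact Or.inr h
  left
  push Not at h
  obtain ⟨v, hv⟩ := h
  have hx0 : v + S t v ≠ 0 := fun h => hv (eq_neg_of_add_eq_zero_right h)
  obtain ⟨x, hx⟩ : ∃ x, x = ‖v + S t v‖⁻¹ • (v + S t v) := ⟨_, rfl⟩
  have hxn : ‖x‖ = 1 := by rw [hx, norm_smul, norm_inv, norm_norm, inv_mul_cancel₀ (norm_ne_zero_iff.2 hx0)]
  have hx1 : S t x = x := by rw [hx, map_smul, map_add, hS.sq, ht, one_pow, one_smul, add_comm]
  have h3 := hS.finrank_neg ht hxn hx1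
  have h4 : finrank ℝ (em S t (-1)) = 0 := by omega
  have h5 : em S t (-1) = ⊥ := Submodule.finrank_eq_zero.1 h4
  intro y
  have h6 : y - S t y ∈ em S t (-1) := by
    rw [mem_em, map_sub, hS.sq, ht, one_pow, one_smul, neg_one_smul, neg_sub]
  rw [h5, Submodule.mem_bot, sub_eq_zero] at h6
  exact h6.symm

end Pool.Agent.Helper95.AE
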